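import Mathlib

set_option autoImplicit false
open Set

namespace Pool.Agent.Lib.MP_896b3c_an

/-- A lift of an orientation preserving circle homeomorphism. -/
structure Lift where
  toIso : ℝ ≃o ℝ
  comm : ∀ x, toIso (x + 1) = toIso x + 1

lemma Lift.comm_nat (g : Lift) (x : ℝ) (n : ℕ) : g.toIso (x + n) = g.toIso x + n := by
  induction n with
  | zero => simp
  | succ n ih => rw [Nat.cast_succ, ← add_assoc, g.comm, ih, add_assoc]

lemma Lift.comm_int (g : Lift) (x : ℝ) (m : ℤ) : g.toIso (x + m) = g.toIso x + m := by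
  obtain ⟨n, rfl | rfl⟩ := m.eq_nat_or_neg
  · simpa using g.comm_nat x n
  · have := g.comm_nat (x + ((-(n : ℤ) : ℤ) : ℝ)) n
    simp only [Int.cast_neg, Int.cast_natCast, neg_add_cancel_right] at this ⊢
    linarith

lemma Lift.iter_comm_int (g : Lift) (k : ℕ) (x : ℝ) (m : ℤ) :
    g.toIso^[k] (x + m) = g.toIso^[k] x + m := by
  induction k with
  | zero => simp
  | succ k ih => rw [Function.iterate_succ_apply', Function.iterate_succ_apply', ih, g.comm_int]

lemma Lift.symm_comm_int (g : Lift) (x : ℝ) (m : ℤ) :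
    g.toIso.symm (x + m) = g.toIso.symm x + m := by
  apply g.toIso.injective
  rw [g.comm_int]; simp

/-- Points outside the gap (17/36, 19/36) modulo 1. -/
def Av (x : ℝ) : Prop := ∀ m : ℤ, x + m ≤ 17 / 36 ∨ 19 / 36 ≤ x + m

lemma Av.add_int {x : ℝ} (h : Av x) (p : ℤ) : Av (x + p) := by
  intro m
  have := h (p + m)
  push_cast at this
  rwa [add_assoc]

lemma av_of_abs_le {x : ℝ} (h : |x| ≤ 17 / 36) : Av x := by
  intro m
  rw [abs_le] at h
  rcases le_or_gt m 0 with hm | hm
  · left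
    have : (m : ℝ) ≤ 0 := by exact_mod_cast hm
    linarith
  · right
    have : (1 : ℝ) ≤ m := by exact_mod_cast hm
    linarith

/-- A step of the induced dynamics: on the interval [b,c] (in a chart) the map is A, it takes
q iterates and p turns, and modifying it costs a kick of relative weight w. -/
structure Arrow where
  b : ℝ
  c : ℝ
  A : ℝ ≃o ℝ
  w : ℝ
  q : ℕ
  p : ℤ

def Arrow.adm (ar : Arrow) (f : ℝ ≃o ℝ) : Prop := ∀ t, t ≤ ar.b ∨ ar.c ≤ t → f t = ar.A t

def Arrow.kick (ar : Arrow) (f : ℝ ≃o ℝ) (t : ℝ) : ℝ :=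
  ar.w * ((f t - ar.A t) + (f.symm t - ar.A.symm t))

def Arrow.dyn (a s : ℝ) (ar : Arrow) (f : ℝ ≃o ℝ) (g : Lift) : Prop :=
  ∀ t, ar.b ≤ t → t ≤ ar.c →
    g.toIso^[ar.q] (a + s * t) = a + s * f t + ar.p ∧ ∀ k ≤ ar.q, Av (g.toIso^[k] (a + s * t))

/-- continuations -/
abbrev Cont := (ℝ → ℝ) → (Lift → Prop) → Prop

def Mono (K : Cont) : Prop := ∀ ψ (C C' : Lift → Prop), (∀ g, C g → C' g) → K ψ C → K ψ C'

def step (a s : ℝ) (ar : Arrow) (K : Cont) : Cont := fun ψ C =>
  ∀ f, ar.adm f → K (fun x => ψ x + s * ar.kick f ((x - a) / s)) (fun g => C g ∧ ar.dyn a s f g)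

variable {a s : ℝ} {K K' : Cont} {ψ : ℝ → ℝ} {C : Lift → Prop}

lemma Mono.step (hK : Mono K) (ar : Arrow) : Mono (step a s ar K) := by
  intro ψ C C' h H f hf
  exact hK _ _ _ (fun g hg => ⟨h g hg.1, hg.2⟩) (H f hf)

lemma step_inner (ar : Arrow) (h : ∀ ψ C, K ψ C → K' ψ C) (H : step a s ar K ψ C) :
    step a s ar K' ψ C := fun f hf => h _ _ (H f hf)

lemma step_swap (hK : Mono K) {ar br : Arrow} (H : step a s ar (step a s br K) ψ C) :
    step a s br (step a s ar K) ψ C := by
  intro f' hf' f hf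
  have := H f hf f' hf'
  have e : (fun x => ψ x + s * br.kick f' ((x - a) / s) + s * ar.kick f ((x - a) / s))
      = fun x => ψ x + s * ar.kick f ((x - a) / s) + s * br.kick f' ((x - a) / s) := by
    funext x; ring
  rw [e]
  exact hK _ _ _ (fun g hg => ⟨⟨hg.1.1, hg.2⟩, hg.1.2⟩) this

lemma step_self {ar : Arrow} (H : step a s ar K ψ C) :
    K ψ (fun g => C g ∧ ar.dyn a s ar.A g) := by
  have := H ar.A (fun _ _ => rfl)
  simpa [Arrow.kick] using this

lemma step_drop (hK : Mono K) {ar : Arrow} (H : step a s ar K ψ C) : K ψ C :=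
  hK _ _ _ (fun _ hg => hg.1) (step_self H)

lemma step_rebase {ar : Arrow} {f₀ : ℝ ≃o ℝ} (h₀ : ar.adm f₀) (H : step a s ar K ψ C) :
    step a s { ar with A := f₀ } K (fun x => ψ x + s * ar.kick f₀ ((x - a) / s)) C := by
  intro f hf
  have := H f (fun t ht => (hf t ht).trans (h₀ t ht))
  have e : (fun x => ψ x + s * ar.kick f₀ ((x - a) / s)
      + s * Arrow.kick { ar with A := f₀ } f ((x - a) / s))
      = fun x => ψ x + s * ar.kick f ((x - a) / s) := by
    funext x; simp only [Arrow.kick]; ring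
  rw [e]
  exact this

lemma symm_eq_of_eq {f A : ℝ ≃o ℝ} {y : ℝ} (h : f (A.symm y) = A (A.symm y)) :
    f.symm y = A.symm y := by
  apply f.injective
  rw [h]; simp

lemma step_shrink (hK : Mono K) {ar : Arrow} (b' c' : ℝ) (A' : ℝ ≃o ℝ) (hb : ar.b ≤ b')
    (hc : c' ≤ ar.c) (hbc : b' ≤ c') (hA : ∀ t, b' ≤ t → t ≤ c' → A' t = ar.A t)
    (H : step a s ar K ψ C) :
    step a s { ar with b := b', c := c', A := A' } K ψ C := by
  intro f' hf'
  have hf'' : ∀ t, t ≤ b' ∨ c' ≤ t → f' t = A' t := hf'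
  let f : ℝ ≃o ℝ := f'.trans (A'.symm.trans ar.A)
  have fout : ∀ t, t ≤ b' ∨ c' ≤ t → f t = ar.A t := by
    intro t ht
    simp [f, hf'' t ht]
  have fin : ∀ t, b' ≤ t → t ≤ c' → f t = f' t := by
    intro t h1 h2
    have h3 : b' ≤ A'.symm (f' t) := by
      rw [A'.le_symm_apply, ← hf'' b' (Or.inl le_rfl)]; exact f'.monotone h1
    have h4 : A'.symm (f' t) ≤ c' := by
      rw [A'.symm_apply_le, ← hf'' c' (Or.inr le_rfl)]; exact f'.monotone h2
    simp only [f, OrderIso.trans_apply]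
    rw [← hA _ h3 h4]; simp
  have hf : ar.adm f := fun t ht => fout t (ht.imp (fun h => h.trans hb) (fun h => hc.trans h))
  have := H f hf
  have e : ∀ t, Arrow.kick { ar with b := b', c := c', A := A' } f' t = ar.kick f t := by
    intro t
    simp only [Arrow.kick]
    congr 2
    · by_cases h : t ≤ b' ∨ c' ≤ t
      · rw [fout t h, hf'' t h]; simp
      · push Not at h
        rw [fin t h.1.le h.2.le, hA t h.1.le h.2.le]
    · by_cases h : A'.symm t ≤ b' ∨ c' ≤ A'.symm t
      · have h1 : f'.symm t = A'.symm t := symm_eq_of_eq (hf'' _ h)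
        have h2 : f.symm t = ar.A.symm t := by
          apply symm_eq_of_eq
          apply fout
          rcases h with h | h
          · left
            rw [A'.symm_apply_le] at h
            rw [ar.A.symm_apply_le, ← hA b' le_rfl hbc]; exact h
          · right
            rw [A'.le_symm_apply] at h
            rw [ar.A.le_symm_apply, ← hA c' hbc le_rfl]; exact h
        rw [h1, h2]; simp
      · push Not at h
        have h1 : ar.A.symm t = A'.symm t := symm_eq_of_eq (hA _ h.1.le h.2.le).symm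
        have h2 : f.symm t = f'.symm t := by
          apply symm_eq_of_eq
          apply fin
          · rw [f'.le_symm_apply, hf'' b' (Or.inl le_rfl), ← A'.le_symm_apply]; exact h.1.le
          · rw [f'.symm_apply_le, hf'' c' (Or.inr le_rfl), ← A'.symm_apply_le]; exact h.2.le
        rw [h1, h2]
  simp only [e]
  refine hK _ _ _ (fun g hg => ⟨hg.1, fun t h1 h2 => ?_⟩) this
  have := hg.2 t (hb.trans h1) (le_trans h2 hc)
  rwa [fin t h1 h2] at this

lemma step_split (hK : Mono K) {ar : Arrow} (e : ℝ) (hb : ar.b ≤ e) (hc : e ≤ ar.c)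
    (H : step a s ar K ψ C) :
    step a s { ar with c := e } (step a s { ar with b := e } K) ψ C := by
  intro f₁ hf₁ f₂ hf₂
  have h₁ : ∀ t, t ≤ ar.b ∨ e ≤ t → f₁ t = ar.A t := hf₁
  have h₂ : ∀ t, t ≤ e ∨ ar.c ≤ t → f₂ t = ar.A t := hf₂
  let f : ℝ ≃o ℝ := f₂.trans (ar.A.symm.trans f₁)
  have fl : ∀ t, t ≤ e → f t = f₁ t := by
    intro t ht
    simp [f, h₂ t (Or.inl ht)]
  have fr : ∀ t, e ≤ t → f t = f₂ t := by
    intro t ht
    have : e ≤ ar.A.symm (f₂ t) := by
      rw [ar.A.le_symm_apply, ← h₂ e (Or.inl le_rfl)]; exact f₂.monotone ht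
    simp only [f, OrderIso.trans_apply]
    rw [h₁ _ (Or.inr this)]; simp
  have hf : ar.adm f := by
    intro t ht
    rcases ht with ht | ht
    · rw [fl t (ht.trans hb), h₁ t (Or.inl ht)]
    · rw [fr t (hc.trans ht), h₂ t (Or.inr ht)]
  have := H f hf
  have e1 : ∀ t, ar.kick f t
      = Arrow.kick { ar with c := e } f₁ t + Arrow.kick { ar with b := e } f₂ t := by
    intro t
    simp only [Arrow.kick]
    have k1 : f t - ar.A t = (f₁ t - ar.A t) + (f₂ t - ar.A t) := by
      rcases le_total t e with h | h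
      · rw [fl t h, h₂ t (Or.inl h)]; ring
      · rw [fr t h, h₁ t (Or.inr h)]; ring
    have k2 : f.symm t - ar.A.symm t = (f₁.symm t - ar.A.symm t) + (f₂.symm t - ar.A.symm t) := by
      rcases le_total (ar.A.symm t) e with h | h
      · have k3 : f₂.symm t = ar.A.symm t := symm_eq_of_eq (h₂ _ (Or.inl h))
        have k4 : f.symm t = f₁.symm t := by
          apply symm_eq_of_eq
          apply fl
          rw [f₁.symm_apply_le, h₁ e (Or.inr le_rfl), ← ar.A.symm_apply_le]; exact h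
        rw [k3, k4]; ring
      · have k3 : f₁.symm t = ar.A.symm t := symm_eq_of_eq (h₁ _ (Or.inr h))
        have k4 : f.symm t = f₂.symm t := by
          apply symm_eq_of_eq
          apply fr
          rw [f₂.le_symm_apply, h₂ e (Or.inl le_rfl), ← ar.A.le_symm_apply]; exact h
        rw [k3, k4]; ring
    rw [k1, k2]; ring
  have e2 : (fun x => ψ x + s * Arrow.kick { ar with c := e } f₁ ((x - a) / s)
      + s * Arrow.kick { ar with b := e } f₂ ((x - a) / s))
      = fun x => ψ x + s * ar.kick f ((x - a) / s) := by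
    funext x; rw [e1]; ring
  rw [e2]
  refine hK _ _ _ (fun g hg => ⟨⟨hg.1, fun t h1 h2 => ?_⟩, fun t h1 h2 => ?_⟩) this
  · have := hg.2 t h1 (le_trans h2 hc)
    rwa [fl t h2] at this
  · have := hg.2 t (hb.trans h1) h2
    rwa [fr t h1] at this

/-- an increasing continuous function that tends to the two infinities, as an order isomorphism -/
noncomputable def mkIso (F : ℝ → ℝ) (hm : StrictMono F) (hc : Continuous F)
    (ht : Filter.Tendsto F Filter.atTop Filter.atTop)
    (hb : Filter.Tendsto F Filter.atBot Filter.atBot) : ℝ ≃o ℝ :=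
  hm.orderIsoOfSurjective F (hc.surjective ht hb)

@[simp] lemma mkIso_apply (F : ℝ → ℝ) (hm hc ht hb) (x : ℝ) : mkIso F hm hc ht hb x = F x := rfl

lemma step_compose (hK : Mono K) {ar br : Arrow} {a₁ d₁ a₂ d₂ : ℝ} (ha₁ : 0 < a₁) (ha₂ : 0 < a₂)
    (hA₁ : ∀ t, ar.A t = a₁ * t + d₁) (hA₂ : ∀ t, br.A t = a₂ * t + d₂)
    (hw₁ : 0 < ar.w) (hw₂ : 0 < br.w) (hb : br.b = ar.A ar.b) (hc : br.c = ar.A ar.c)
    (H : step a s ar (step a s br K) ψ C) :
    step a s ⟨ar.b, ar.c, ar.A.trans br.A, ar.w * br.w / (br.w * a₂ + ar.w / a₁),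
      br.q + ar.q, ar.p + br.p⟩ K ψ C := by
  intro G hG
  have hG' : ∀ t, t ≤ ar.b ∨ ar.c ≤ t → G t = br.A (ar.A t) := hG
  set κ : ℝ := br.w * a₂ + ar.w / a₁ with hκ
  have hκ0 : 0 < κ := by positivity
  set β : ℝ := br.w / κ with hβ
  have hβ0 : 0 < β := by positivity
  have hγ : a₁ * (1 - β * a₂) = ar.w / κ := by
    rw [hβ]; field_simp; rw [hκ]; field_simp; ring
  have hγ0 : 0 < ar.w / κ := by positivity
  let XF : ℝ → ℝ := fun t => ar.w / κ * t + β * G t + (d₁ - β * (a₂ * d₁ + d₂))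
  have hXF : ∀ t, XF t = ar.A t + β * (G t - br.A (ar.A t)) := by
    intro t
    simp only [XF]
    rw [hA₂, hA₁, ← hγ]; ring
  let X : ℝ ≃o ℝ := mkIso XF
    (fun x y h => by
      have := G.strictMono h
      simp only [XF]
      nlinarith [mul_pos hγ0 (sub_pos.2 h), mul_pos hβ0 (sub_pos.2 this)])
    (by have := G.continuous; simp only [XF]; fun_prop)
    (Filter.tendsto_atTop_add_const_right _ _ (Filter.Tendsto.atTop_add_atTop
      (Filter.tendsto_id.const_mul_atTop hγ0) (G.tendsto_atTop.const_mul_atTop hβ0)))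
    (Filter.tendsto_atBot_add_const_right _ _ (Filter.Tendsto.atBot_add_atBot
      (Filter.tendsto_id.const_mul_atBot hγ0) (G.tendsto_atBot.const_mul_atBot hβ0)))
  have hX : ∀ t, X t = ar.A t + β * (G t - br.A (ar.A t)) := hXF
  have hXa : ar.adm X := by
    intro t ht
    rw [hX, hG' t ht]; ring
  let f₂ : ℝ ≃o ℝ := X.symm.trans G
  have hf₂ : br.adm f₂ := by
    intro y hy
    have h1 : ar.A.symm y ≤ ar.b ∨ ar.c ≤ ar.A.symm y := by
      rcases hy with hy | hy
      · left; rw [ar.A.symm_apply_le, ← hb]; exact hy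
      · right; rw [ar.A.le_symm_apply, ← hc]; exact hy
    have h2 : X.symm y = ar.A.symm y := symm_eq_of_eq (hXa _ h1)
    simp only [f₂, OrderIso.trans_apply]
    rw [h2, hG' _ h1]; simp
  have := H X hXa f₂ hf₂
  have s₁ : ∀ y, ar.A.symm y = (y - d₁) / a₁ := by
    intro y; apply ar.A.injective; rw [hA₁ ((y - d₁) / a₁)]; simp; field_simp; ring
  have s₂ : ∀ y, br.A.symm y = (y - d₂) / a₂ := by
    intro y; apply br.A.injective; rw [hA₂ ((y - d₂) / a₂)]; simp; field_simp; ring
  have e1 : ∀ z, ar.kick X z + br.kick f₂ z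
      = Arrow.kick ⟨ar.b, ar.c, ar.A.trans br.A, ar.w * br.w / κ, br.q + ar.q, ar.p + br.p⟩ G z := by
    intro z
    simp only [Arrow.kick]
    have k1 : ar.w * (X z - ar.A z) = ar.w * br.w / κ * (G z - (ar.A.trans br.A) z) := by
      rw [hX, hβ]; simp only [OrderIso.trans_apply]; field_simp; ring
    have k2 : ar.w * (X.symm z - ar.A.symm z) + br.w * (f₂ z - br.A z) = 0 := by
      obtain ⟨x, rfl⟩ := X.surjective z
      simp only [f₂, OrderIso.trans_apply, OrderIso.symm_apply_apply]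
      rw [s₁, hA₂, hX, hA₂, hA₁, hβ]
      field_simp
      rw [hκ]; field_simp; ring
    have k3 : br.w * (f₂.symm z - br.A.symm z)
        = ar.w * br.w / κ * (G.symm z - (ar.A.trans br.A).symm z) := by
      obtain ⟨x, rfl⟩ := G.surjective z
      have : f₂.symm (G x) = X x := by simp [f₂]
      rw [this]
      simp only [OrderIso.symm_apply_apply, OrderIso.symm_trans_apply]
      rw [s₁, s₂, hX, hA₂, hA₁, hβ]
      field_simp
      rw [hκ]; field_simp; ring
    linear_combination k1 + k2 + k3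
  have e2 : (fun x => ψ x + s * ar.kick X ((x - a) / s) + s * br.kick f₂ ((x - a) / s))
      = fun x => ψ x + s * Arrow.kick ⟨ar.b, ar.c, ar.A.trans br.A, ar.w * br.w / κ,
        br.q + ar.q, ar.p + br.p⟩ G ((x - a) / s) := by
    funext x; rw [← e1]; ring
  rw [e2] at this
  refine hK _ _ _ (fun g hg => ⟨hg.1.1, fun t h1 h2 => ?_⟩) this
  have d1 := hg.1.2 t h1 h2
  have hb' : br.b ≤ X t := by
    rw [hb, ← hXa ar.b (Or.inl le_rfl)]; exact X.monotone h1
  have hc' : X t ≤ br.c := by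
    rw [hc, ← hXa ar.c (Or.inr le_rfl)]; exact X.monotone h2
  have d2 := hg.2 (X t) hb' hc'
  constructor
  · change g.toIso^[br.q + ar.q] (a + s * t) = a + s * G t + ((ar.p + br.p : ℤ) : ℝ)
    rw [Function.iterate_add_apply, d1.1, g.iter_comm_int, d2.1]
    simp only [f₂, OrderIso.trans_apply, OrderIso.symm_apply_apply]
    push_cast; ring
  · intro k hk
    change k ≤ br.q + ar.q at hk
    rcases le_total k ar.q with h | h
    · exact d1.2 k h
    · obtain ⟨j, rfl⟩ := Nat.exists_eq_add_of_le' h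
      rw [Function.iterate_add_apply, d1.1, g.iter_comm_int]
      exact (d2.2 j (by omega)).add_int _

/-- the affine order isomorphism t ↦ η t + d -/
noncomputable def aff (η d : ℝ) (h : 0 < η) : ℝ ≃o ℝ where
  toFun t := η * t + d
  invFun y := (y - d) / η
  left_inv t := by field_simp; ring
  right_inv y := by field_simp; ring
  map_rel_iff' := by
    intro x y
    simp only [Equiv.coe_fn_mk, add_le_add_iff_right]
    exact mul_le_mul_iff_right₀ h

@[simp] lemma aff_apply (η d : ℝ) (h : 0 < η) (t : ℝ) : aff η d h t = η * t + d := rfl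
@[simp] lemma aff_symm_apply (η d : ℝ) (h : 0 < η) (y : ℝ) :
    (aff η d h).symm y = (y - d) / η := rfl

lemma step_rechart (hK : Mono K) {ar : Arrow} (hs : 0 < s) {τ σ : ℝ} (hσ : 0 < σ)
    (b' c' : ℝ) (A' : ℝ ≃o ℝ) (hb : ar.b = σ * b' + τ) (hc : ar.c = σ * c' + τ)
    (hA : ∀ t, ar.A (σ * t + τ) = σ * A' t + τ) (H : step a s ar K ψ C) :
    step (a + s * τ) (s * σ) { ar with b := b', c := c', A := A' } K ψ C := by
  intro f' hf'
  have hf'' : ∀ t, t ≤ b' ∨ c' ≤ t → f' t = A' t := hf'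
  let θ := aff σ τ hσ
  let f : ℝ ≃o ℝ := θ.symm.trans (f'.trans θ)
  have hfθ : ∀ t, f (σ * t + τ) = σ * f' t + τ := by
    intro t
    have : (σ * t + τ - τ) / σ = t := by field_simp; ring
    simp only [f, θ, OrderIso.trans_apply, aff_apply, aff_symm_apply, this]
  have hf : ar.adm f := by
    intro t ht
    obtain ⟨t', rfl⟩ := θ.surjective t
    simp only [θ, aff_apply] at ht ⊢
    rw [hfθ, hA, hf'']
    rw [hb, hc] at ht
    rcases ht with ht | ht
    · left; nlinarith
    · right; nlinarith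
  have := H f hf
  have e : (fun x => ψ x + s * σ * Arrow.kick { ar with b := b', c := c', A := A' } f'
      ((x - (a + s * τ)) / (s * σ))) = fun x => ψ x + s * ar.kick f ((x - a) / s) := by
    funext x
    set t' := (x - (a + s * τ)) / (s * σ) with ht'
    have h1 : (x - a) / s = σ * t' + τ := by rw [ht']; field_simp; ring
    have h2 : f.symm (σ * t' + τ) = σ * f'.symm t' + τ := by
      apply f.injective; rw [hfθ]; simp
    have h3 : ar.A.symm (σ * t' + τ) = σ * A'.symm t' + τ := by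
      apply ar.A.injective; rw [hA]; simp
    simp only [Arrow.kick]
    rw [h1, hfθ, hA, h2, h3]; ring
  rw [e]
  refine hK _ _ _ (fun g hg => ⟨hg.1, fun t h1 h2 => ?_⟩) this
  have h1' : b' ≤ t := h1
  have h2' : t ≤ c' := h2
  have := hg.2 (σ * t + τ) (by rw [hb]; nlinarith) (by rw [hc]; nlinarith)
  rw [hfθ] at this
  have e1 : a + s * τ + s * σ * t = a + s * (σ * t + τ) := by ring
  have e2 : a + s * τ + s * σ * f' t = a + s * (σ * f' t + τ) := by ring
  rw [e1, e2]
  exact this

end Pool.Agent.Lib.MP_896b3c_an
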