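import Mathlib
import Pool.Agent.Lib.MP_896b3c_an.Arrow

set_option autoImplicit false
open Set Filter Topology
open scoped ContDiff

namespace Pool.Agent.Lib.MP_896b3c_an

/-- smooth real functions -/
abbrev Sm (f : ℝ → ℝ) : Prop := ContDiff ℝ ∞ f

lemma Sm.diff {f : ℝ → ℝ} (h : Sm f) : Differentiable ℝ f := (contDiff_infty_iff_deriv.1 h).1
lemma Sm.der {f : ℝ → ℝ} (h : Sm f) : Sm (deriv f) := (contDiff_infty_iff_deriv.1 h).2
lemma Sm.nat {f : ℝ → ℝ} (h : Sm f) (n : ℕ) : ContDiff ℝ n f := h.of_le (by exact_mod_cast le_top)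

/-- all derivatives up to order r are bounded by δ -/
def Bd (r : ℕ) (δ : ℝ) (f : ℝ → ℝ) : Prop := ∀ j ≤ r, ∀ x, |iteratedDeriv j f x| ≤ δ

lemma Bd.mono {r : ℕ} {δ δ' : ℝ} {f : ℝ → ℝ} (h : Bd r δ f) (hδ : δ ≤ δ') : Bd r δ' f :=
  fun j hj x => (h j hj x).trans hδ

lemma Bd.add {r : ℕ} {δ δ' : ℝ} {f g : ℝ → ℝ} (hf : Sm f) (hg : Sm g) (h : Bd r δ f)
    (h' : Bd r δ' g) : Bd r (δ + δ') (fun x => f x + g x) := by
  intro j hj x
  have := iteratedDeriv_add (n := j) (x := x) (hf.nat j).contDiffAt (hg.nat j).contDiffAt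
  change |iteratedDeriv j (f + g) x| ≤ _
  rw [this]
  exact (abs_add_le _ _).trans (add_le_add (h j hj x) (h' j hj x))

lemma Bd.const_mul {r : ℕ} {δ c : ℝ} {f : ℝ → ℝ} (hc : 0 ≤ c) (h : Bd r δ f) :
    Bd r (c * δ) (fun x => c * f x) := by
  intro j hj x
  rw [iteratedDeriv_const_mul_field, abs_mul, abs_of_nonneg hc]
  exact mul_le_mul_of_nonneg_left (h j hj x) hc

lemma Bd.rescale {r : ℕ} {δ s : ℝ} (a : ℝ) {f : ℝ → ℝ} (hf : Sm f) (hs : 0 < s) (h : Bd r δ f) :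
    Bd r ((1 + s⁻¹) ^ r * δ) (fun x => f ((x - a) / s)) := by
  intro j hj x
  have e : (fun x => f ((x - a) / s)) = fun x => (fun y => f (s⁻¹ * y)) (x - a) := by
    funext x; simp only; congr 1; field_simp
  rw [e, iteratedDeriv_comp_sub_const (f := fun y => f (s⁻¹ * y)),
    iteratedDeriv_comp_const_mul (hf.nat j)]
  simp only
  have hs' : 0 < s⁻¹ := inv_pos.2 hs
  rw [abs_mul, abs_of_nonneg (by positivity)]
  have h1 : s⁻¹ ^ j ≤ (1 + s⁻¹) ^ r :=
    (pow_le_pow_left₀ hs'.le (by linarith) j).trans (pow_le_pow_right₀ (by linarith) hj)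
  exact mul_le_mul h1 (h j hj _) (abs_nonneg _) (by positivity)

lemma Sm.rescale {f : ℝ → ℝ} (hf : Sm f) (a s : ℝ) : Sm (fun x => f ((x - a) / s)) :=
  ContDiff.comp hf ((contDiff_id.sub contDiff_const).div_const s)

lemma sm_symm (h : ℝ ≃o ℝ) (hs : Sm h) (hd : ∀ x, 0 < deriv h x) : Sm h.symm :=
  Homeomorph.contDiff_symm_deriv h.toHomeomorph (f' := deriv h) (fun x => (hd x).ne')
    (fun x => (hs.diff x).hasDerivAt) hs

lemma hasDerivAt_symm (h : ℝ ≃o ℝ) (hs : Sm h) (hd : ∀ x, 0 < deriv h x) (t : ℝ) :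
    HasDerivAt h.symm (deriv h (h.symm t))⁻¹ t :=
  HasDerivAt.of_local_left_inverse h.symm.continuous.continuousAt (hs.diff _).hasDerivAt
    (hd _).ne' (Eventually.of_forall fun y => by simp)

lemma blend {F₁ F₂ : ℝ → ℝ} (h₁ : Sm F₁) (h₂ : Sm F₂) (d₁ : ∀ x, 0 < deriv F₁ x)
    (d₂ : ∀ x, 0 < deriv F₂ x) {b c : ℝ} (hbc : b < c) (hle : ∀ x, b ≤ x → x ≤ c → F₁ x ≤ F₂ x) :
    ∃ F : ℝ → ℝ, Sm F ∧ (∀ x, 0 < deriv F x) ∧ (∀ x, x ≤ b → F x = F₁ x) ∧
      ∀ x, c ≤ x → F x = F₂ x := by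
  have hcb : 0 < c - b := sub_pos.2 hbc
  let χ : ℝ → ℝ := fun x => Real.smoothTransition ((x - b) / (c - b))
  have hχ : Sm χ := Sm.rescale Real.smoothTransition.contDiff b (c - b)
  have hχm : Monotone χ := fun x y h =>
    Real.smoothTransition.monotone (div_le_div_of_nonneg_right (by linarith) hcb.le)
  have hχ0 : ∀ x, x ≤ b → χ x = 0 := fun x hx =>
    Real.smoothTransition.zero_of_nonpos (div_nonpos_of_nonpos_of_nonneg (by linarith) hcb.le)
  have hχ1 : ∀ x, c ≤ x → χ x = 1 := fun x hx =>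
    Real.smoothTransition.one_of_one_le (by rw [le_div_iff₀ hcb]; linarith)
  refine ⟨fun x => F₁ x + χ x * (F₂ x - F₁ x), h₁.add (hχ.mul (h₂.sub h₁)), fun x => ?_,
    fun x hx => by simp [hχ0 x hx], fun x hx => by simp [hχ1 x hx]⟩
  have hd : HasDerivAt (fun x => F₁ x + χ x * (F₂ x - F₁ x))
      (deriv F₁ x + (deriv χ x * (F₂ x - F₁ x) + χ x * (deriv F₂ x - deriv F₁ x))) x :=
    (h₁.diff x).hasDerivAt.add ((hχ.diff x).hasDerivAt.mul
      ((h₂.diff x).hasDerivAt.sub (h₁.diff x).hasDerivAt))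
  rw [hd.deriv]
  have k1 : 0 ≤ deriv χ x * (F₂ x - F₁ x) := by
    rcases lt_or_ge x b with hx | hx
    · have : χ =ᶠ[𝓝 x] fun _ => 0 :=
        (eventually_lt_nhds hx).mono fun y hy => hχ0 y hy.le
      rw [this.deriv_eq]; simp
    rcases lt_or_ge c x with hx' | hx'
    · have : χ =ᶠ[𝓝 x] fun _ => 1 :=
        (eventually_gt_nhds hx').mono fun y hy => hχ1 y hy.le
      rw [this.deriv_eq]; simp
    exact mul_nonneg hχm.deriv_nonneg (sub_nonneg.2 (hle x hx hx'))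
  have k2 : 0 ≤ χ x := Real.smoothTransition.nonneg _
  have k3 : χ x ≤ 1 := Real.smoothTransition.le_one _
  have k4 := d₁ x
  have k5 := d₂ x
  rcases k2.eq_or_lt with k6 | k6
  · rw [← k6]; linarith
  · nlinarith [mul_pos k6 k5, mul_nonneg (sub_nonneg.2 k3) k4.le]

lemma sm_aff (η d : ℝ) : Sm (fun t => η * t + d) :=
  (contDiff_const.mul contDiff_id).add contDiff_const

lemma deriv_aff (η d x : ℝ) : deriv (fun t => η * t + d) x = η := by
  simp

/-- the operator computing derivatives of a function composed with the inverse of P + ε Q -/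
noncomputable def opL (P Q : ℝ → ℝ) (F : ℝ × ℝ → ℝ) (z : ℝ × ℝ) : ℝ :=
  deriv (fun τ => F (z.1, τ)) z.2 / (deriv P z.2 + z.1 * deriv Q z.2)

lemma est {P Q E : ℝ → ℝ} (hP : Sm P) (hQ : Sm Q) (hE : Sm E) (hP' : ∀ τ, 0 < deriv P τ)
    (hQ' : ∀ τ, 0 ≤ deriv Q τ) {b c : ℝ} (hE0 : ∀ τ, τ < b ∨ c < τ → E τ = 0) (r : ℕ) :
    ∃ M, 0 ≤ M ∧ ∀ ε, 0 ≤ ε → ε ≤ 1 → ∀ h : ℝ ≃o ℝ, Sm h → (∀ τ, 0 < deriv h τ) →
      (∀ τ, b - 1 < τ → τ < c + 1 → h τ = P τ + ε * Q τ) → Bd r M (fun t => E (h.symm t)) := by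
  let Ω : Set (ℝ × ℝ) := {z | 0 < deriv P z.2 + z.1 * deriv Q z.2}
  have hden : ContDiff ℝ ∞ (fun z : ℝ × ℝ => deriv P z.2 + z.1 * deriv Q z.2) :=
    (hP.der.comp contDiff_snd).add (contDiff_fst.mul (hQ.der.comp contDiff_snd))
  have hΩ : IsOpen Ω := isOpen_lt continuous_const hden.continuous
  have hmem : ∀ ε τ, 0 ≤ ε → (ε, τ) ∈ Ω := fun ε τ hε =>
    add_pos_of_pos_of_nonneg (hP' τ) (mul_nonneg hε (hQ' τ))
  let EE : ℕ → ℝ × ℝ → ℝ := fun j => (opL P Q)^[j] (fun z => E z.2)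
  have EEs : ∀ j, EE (j + 1) = opL P Q (EE j) := fun j => Function.iterate_succ_apply' _ _ _
  have hder : ∀ F : ℝ × ℝ → ℝ, ContDiffOn ℝ ∞ F Ω → ∀ z ∈ Ω,
      HasDerivAt (fun τ => F (z.1, τ)) (fderiv ℝ F z (0, 1)) z.2 := by
    intro F hF z hz
    have h1 : HasFDerivAt F (fderiv ℝ F z) (z.1, z.2) :=
      ((hF.contDiffAt (hΩ.mem_nhds hz)).differentiableAt (by simp)).hasFDerivAt
    have h2 : HasDerivAt (fun τ : ℝ => (z.1, τ)) ((0 : ℝ), (1 : ℝ)) z.2 :=
      (hasDerivAt_const _ _).prodMk (hasDerivAt_id _)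
    exact h1.comp_hasDerivAt z.2 h2
  have ha : ∀ j, ContDiffOn ℝ ∞ (EE j) Ω := by
    intro j
    induction j with
    | zero => exact (hE.comp contDiff_snd).contDiffOn
    | succ j ih =>
      rw [EEs]
      have h1 : ContDiffOn ℝ ∞ (fun z => fderiv ℝ (EE j) z (0, 1)) Ω :=
        (ih.fderiv_of_isOpen hΩ (m := ∞) (by simp)).clm_apply contDiffOn_const
      refine (h1.div hden.contDiffOn fun z hz => ne_of_gt hz).congr fun z hz => ?_
      simp only [opL, Pi.div_apply]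
      rw [(hder _ ih z hz).deriv]
  have hb : ∀ j ε τ, τ < b ∨ c < τ → EE j (ε, τ) = 0 := by
    intro j ε
    induction j with
    | zero => exact hE0
    | succ j ih =>
      intro τ hτ
      rw [EEs]
      have : (fun τ => EE j (ε, τ)) =ᶠ[𝓝 τ] fun _ => 0 := by
        rcases hτ with hτ | hτ
        · exact (eventually_lt_nhds hτ).mono fun y hy => ih y (Or.inl hy)
        · exact (eventually_gt_nhds hτ).mono fun y hy => ih y (Or.inr hy)
      simp only [opL]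
      rw [this.deriv_eq]; simp
  have hbd : ∀ j, ∃ M, 0 ≤ M ∧ ∀ ε τ, 0 ≤ ε → ε ≤ 1 → |EE j (ε, τ)| ≤ M := by
    intro j
    have hK : IsCompact (Icc (0 : ℝ) 1 ×ˢ Icc b c) := isCompact_Icc.prod isCompact_Icc
    obtain ⟨M, hM⟩ := hK.exists_bound_of_continuousOn
      ((ha j).continuousOn.mono fun z hz => hmem z.1 z.2 hz.1.1)
    refine ⟨max M 0, le_max_right _ _, fun ε τ h0 h1 => ?_⟩
    by_cases hτ : τ < b ∨ c < τ
    · rw [hb j ε τ hτ]; simp
    · push Not at hτ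
      exact (hM (ε, τ) ⟨⟨h0, h1⟩, hτ⟩).trans (le_max_left _ _)
  choose M hM0 hM using hbd
  refine ⟨∑ j ∈ Finset.range (r + 1), M j, Finset.sum_nonneg fun j _ => hM0 j,
    fun ε h0 h1 h hs hd hh j hj x => ?_⟩
  have key : ∀ j, iteratedDeriv j (fun t => E (h.symm t)) = fun t => EE j (ε, h.symm t) := by
    intro j
    induction j with
    | zero => rfl
    | succ j ih =>
      rw [iteratedDeriv_succ, ih, EEs]
      funext t
      have h2 := (hder _ (ha j) (ε, h.symm t) (hmem _ _ h0))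
      have h3 := h2.comp t (hasDerivAt_symm h hs hd t)
      have h4 : deriv (fun t => EE j (ε, h.symm t)) t
          = fderiv ℝ (EE j) (ε, h.symm t) (0, 1) * (deriv h (h.symm t))⁻¹ := h3.deriv
      rw [h4]
      simp only [opL]
      by_cases hτ : h.symm t < b ∨ c < h.symm t
      · have h5 := hb (j + 1) ε _ hτ
        rw [EEs] at h5
        simp only [opL] at h5
        rw [h5]
        have h6 := (hmem ε (h.symm t) h0)
        rw [div_eq_zero_iff] at h5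
        rcases h5 with h5 | h5
        · rw [← h2.deriv]
          simp only at h5 ⊢
          rw [h5]; simp
        · exact absurd h5 (ne_of_gt h6)
      · push Not at hτ
        have h5 : (h : ℝ → ℝ) =ᶠ[𝓝 (h.symm t)] fun τ => P τ + ε * Q τ := by
          filter_upwards [eventually_gt_nhds (show b - 1 < h.symm t by linarith),
            eventually_lt_nhds (show h.symm t < c + 1 by linarith)] with y h1 h2
          exact hh y h1 h2
        have h6 : HasDerivAt (fun τ => P τ + ε * Q τ)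
            (deriv P (h.symm t) + ε * deriv Q (h.symm t)) (h.symm t) :=
          (hP.diff _).hasDerivAt.add ((hQ.diff _).hasDerivAt.const_mul ε)
        rw [h5.deriv_eq, h6.deriv, h2.deriv, div_eq_mul_inv]
  rw [key]
  exact (hM j ε _ h0 h1).trans (Finset.single_le_sum (f := M) (fun j _ => hM0 j)
    (Finset.mem_range.2 (by omega)))

lemma bd_of_support {E : ℝ → ℝ} (hE : Sm E) {b c : ℝ} (hE0 : ∀ τ, τ < b ∨ c < τ → E τ = 0)
    (r : ℕ) : ∃ M, 0 ≤ M ∧ Bd r M E := by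
  obtain ⟨M, hM0, hM⟩ := est (P := fun x => x) (Q := fun _ => 0) contDiff_id contDiff_const hE
    (by simp) (by simp) hE0 r
  exact ⟨M, hM0, hM 0 le_rfl zero_le_one (OrderIso.refl ℝ) contDiff_id
    (fun τ => by change 0 < deriv (fun x => x) τ; simp) (by simp)⟩

end Pool.Agent.Lib.MP_896b3c_an
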