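import Mathlib
import Pool.Agent.Lib.MP_896b3c_an.Smooth

set_option autoImplicit false
open Set Filter Topology
open scoped ContDiff

namespace Pool.Agent.Lib.MP_896b3c_an

/-- the stable coordinate -/
noncomputable def SS (τ : ℝ) : ℝ := -(69 / 20) * Real.exp (-(Real.log 4 * τ))

lemma log4_pos : 0 < Real.log 4 := Real.log_pos (by norm_num)

lemma SS_neg (τ : ℝ) : SS τ < 0 := by
  have := Real.exp_pos (-(Real.log 4 * τ))
  unfold SS; linarith

lemma SS_zero : SS 0 = -(69 / 20) := by simp [SS]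

lemma SS_add_one (τ : ℝ) : SS (τ + 1) = SS τ / 4 := by
  unfold SS
  rw [mul_add, neg_add, Real.exp_add, mul_one, Real.exp_neg (Real.log 4),
    Real.exp_log (by norm_num)]
  ring

lemma SS_add_nat (τ : ℝ) (k : ℕ) : SS (τ + k) = SS τ / 4 ^ k := by
  induction k with
  | zero => simp
  | succ k ih => rw [Nat.cast_succ, ← add_assoc, SS_add_one, ih, pow_succ]; field_simp

lemma sm_SS : Sm SS := by
  unfold SS Sm; fun_prop

lemma hasDerivAt_SS (τ : ℝ) : HasDerivAt SS (-(Real.log 4) * SS τ) τ := by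
  have h1 : HasDerivAt (fun τ => -(Real.log 4 * τ)) (-(Real.log 4 * 1)) τ :=
    ((hasDerivAt_id τ).const_mul (Real.log 4)).neg
  have h2 := (h1.exp).const_mul (-(69 / 20) : ℝ)
  have e : -(Real.log 4) * SS τ
      = -(69 / 20) * (Real.exp (-(Real.log 4 * τ)) * -(Real.log 4 * 1)) := by
    unfold SS; ring
  rw [e]
  exact h2

lemma deriv_SS_pos (τ : ℝ) : 0 < deriv SS τ := by
  rw [(hasDerivAt_SS τ).deriv]
  exact mul_pos_of_neg_of_neg (neg_lt_zero.2 log4_pos) (SS_neg τ)

lemma SS_strictMono : StrictMono SS := strictMono_of_deriv_pos deriv_SS_pos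

lemma SS_one : SS 1 = -(69 / 80) := by
  have := SS_add_one 0
  rw [zero_add, SS_zero] at this; rw [this]; norm_num

lemma SS_two : SS 2 = -(69 / 320) := by
  have := SS_add_one 1
  rw [SS_one, one_add_one_eq_two] at this; rw [this]; norm_num

lemma SS_neg_one : SS (-1) = -(69 / 5) := by
  have := SS_add_one (-1)
  rw [neg_add_cancel, SS_zero] at this; linarith

/-- the inverse of the stable coordinate -/
noncomputable def TT (y : ℝ) : ℝ := -Real.log (-y * (20 / 69)) / Real.log 4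

lemma SS_TT {y : ℝ} (hy : y < 0) : SS (TT y) = y := by
  unfold SS TT
  have h4 := log4_pos
  have : -(Real.log 4 * (-Real.log (-y * (20 / 69)) / Real.log 4)) = Real.log (-y * (20 / 69)) := by
    field_simp
  rw [this, Real.exp_log (by nlinarith)]
  ring

lemma TT_div_pow {y : ℝ} (hy : y < 0) (k : ℕ) : TT (y / 4 ^ k) = TT y + k := by
  apply SS_strictMono.injective
  rw [SS_TT (div_neg_of_neg_of_pos hy (by positivity)), SS_add_nat, SS_TT hy]

lemma TT_mono {y y' : ℝ} (h : y ≤ y') (hy : y' < 0) : TT y ≤ TT y' := by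
  rw [← SS_strictMono.le_iff_le, SS_TT hy, SS_TT (lt_of_le_of_lt h hy)]; exact h

lemma exists_F : ∃ F : ℝ → ℝ, Sm F ∧ (∀ x, 0 < deriv F x) ∧
    (∀ y, y ≤ -(29 / 10) → F y = y + 63 / 10) ∧
    (∀ y, -(11 / 4) ≤ y → y ≤ -(53 / 20) → F y = 4 * (y + 27 / 5)) ∧
    (∀ y, -(7 / 8) ≤ y → F y = 16 * y + 126 / 5) := by
  obtain ⟨F₁, s₁, d₁, l₁, r₁⟩ := blend (sm_aff 1 (63 / 10)) (sm_aff 4 (108 / 5))
    (fun x => by rw [deriv_aff]; norm_num) (fun x => by rw [deriv_aff]; norm_num)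
    (b := -(29 / 10)) (c := -(11 / 4)) (by norm_num) (fun x h1 h2 => by linarith)
  obtain ⟨F₂, s₂, d₂, l₂, r₂⟩ := blend s₁ (sm_aff (1 / 100) (278 / 25)) d₁
    (fun x => by rw [deriv_aff]; norm_num)
    (b := -(53 / 20)) (c := -(263 / 100)) (by norm_num)
    (fun x h1 h2 => by rw [r₁ x (by linarith)]; linarith)
  obtain ⟨F₃, s₃, d₃, l₃, r₃⟩ := blend s₂ (sm_aff 16 (126 / 5)) d₂
    (fun x => by rw [deriv_aff]; norm_num)
    (b := -(22 / 25)) (c := -(7 / 8)) (by norm_num)
    (fun x h1 h2 => by rw [r₂ x (by linarith)]; linarith)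
  refine ⟨F₃, s₃, d₃, fun y hy => ?_, fun y h1 h2 => ?_, r₃⟩
  · rw [l₃ y (by linarith), l₂ y (by linarith), l₁ y hy]; ring
  · rw [l₃ y (by linarith), l₂ y (by linarith), r₁ y h1]; ring

lemma exists_B : ∃ B : ℝ → ℝ, Sm B ∧ (∀ x, 0 < deriv B x) ∧ (∀ τ, 0 < B τ) ∧
    (∀ τ, B (τ + 1) = 4 * B τ) ∧
    (∀ τ, -(69 / 20) ≤ SS τ → SS τ ≤ -(29 / 10) → B τ = SS τ + 63 / 10) ∧
    (∀ τ, -(11 / 4) ≤ SS τ → SS τ ≤ -(53 / 20) → B τ = 4 * (SS τ + 27 / 5)) := by
  obtain ⟨F, sF, dF, F1, F2, F3⟩ := exists_F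
  have Fm : StrictMono F := strictMono_of_deriv_pos dF
  let B : ℝ → ℝ := fun τ => (4 : ℝ) ^ ⌊τ⌋ * F (SS (τ - ⌊τ⌋))
  have hloc : ∀ (k : ℤ) (τ : ℝ), τ < k + 1 → -(7 / 2) < SS (τ - k) →
      B τ = (4 : ℝ) ^ k * F (SS (τ - k)) := by
    intro k τ h1 h2
    rcases le_or_gt (k : ℝ) τ with h | h
    · have : ⌊τ⌋ = k := Int.floor_eq_iff.2 ⟨h, h1⟩
      simp only [B, this]
    · have h3 : -1 < τ - k := by
        rw [← SS_strictMono.lt_iff_lt, SS_neg_one]; linarith
      have h4 : SS (τ - k) < -(69 / 20) := by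
        rw [← SS_zero]; exact SS_strictMono (by linarith)
      have : ⌊τ⌋ = k - 1 := Int.floor_eq_iff.2 ⟨by push_cast; linarith, by push_cast; linarith⟩
      simp only [B, this]
      have e : τ - ((k - 1 : ℤ) : ℝ) = τ - k + 1 := by push_cast; ring
      rw [e, SS_add_one, F3 _ (by linarith), F1 _ (by linarith), zpow_sub_one₀ (by norm_num)]
      ring
  have hev : ∀ τ : ℝ, B =ᶠ[𝓝 τ] fun x => (4 : ℝ) ^ ⌊τ⌋ * F (SS (x - ⌊τ⌋)) := by
    intro τ
    have h1 : -(7 / 2) < SS (τ - ⌊τ⌋) := by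
      have := SS_strictMono.monotone (sub_nonneg.2 (Int.floor_le τ))
      rw [SS_zero] at this; linarith
    have hc : Continuous fun x => SS (x - ⌊τ⌋) := sm_SS.continuous.comp (by fun_prop)
    filter_upwards [eventually_lt_nhds (Int.lt_floor_add_one τ),
      hc.continuousAt.eventually (eventually_gt_nhds h1)] with x h2 h3
    exact hloc _ x h2 h3
  have hfl : ∀ τ, -(69 / 20) ≤ SS τ → SS τ ≤ -(53 / 20) → B τ = F (SS τ) := by
    intro τ h1 h2
    have := hloc 0 τ (by
      push_cast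
      rw [zero_add, ← SS_strictMono.lt_iff_lt, SS_one]; linarith) (by simp; linarith)
    simpa using this
  refine ⟨B, ?_, fun τ => ?_, fun τ => ?_, fun τ => ?_, fun τ h1 h2 => ?_, fun τ h1 h2 => ?_⟩
  · rw [Sm, contDiff_iff_contDiffAt]
    intro τ
    refine ContDiffAt.congr_of_eventuallyEq ?_ (hev τ)
    exact (contDiff_const.mul (sF.comp (sm_SS.comp (contDiff_id.sub contDiff_const)))).contDiffAt
  · rw [(hev τ).deriv_eq]
    have h1 : HasDerivAt (fun x => SS (x - ⌊τ⌋)) (deriv SS (τ - ⌊τ⌋)) τ :=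
      (sm_SS.diff _).hasDerivAt.comp_sub_const τ _
    have h2 := ((sF.diff (SS (τ - ⌊τ⌋))).hasDerivAt.comp τ h1).const_mul ((4 : ℝ) ^ ⌊τ⌋)
    have h3 : deriv (fun x => (4 : ℝ) ^ ⌊τ⌋ * F (SS (x - ⌊τ⌋))) τ = _ := h2.deriv
    rw [h3]
    exact mul_pos (by positivity) (mul_pos (dF _) (deriv_SS_pos _))
  · have h1 := SS_strictMono.monotone (sub_nonneg.2 (Int.floor_le τ))
    rw [SS_zero] at h1
    have h2 := Fm.monotone h1
    rw [F1 _ (by norm_num)] at h2
    exact mul_pos (by positivity) (by linarith)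
  · simp only [B, Int.floor_add_one]
    have e : τ + 1 - ((⌊τ⌋ + 1 : ℤ) : ℝ) = τ - ⌊τ⌋ := by push_cast; ring
    rw [e, zpow_add_one₀ (by norm_num)]
    ring
  · rw [hfl τ h1 (by linarith), F1 _ h2]
  · rw [hfl τ (by linarith) h2, F2 _ h1 h2]

/-- the cut-off function -/
noncomputable def chi (y : ℝ) : ℝ := Real.smoothTransition (4 * y + 2)

lemma sm_chi : Sm chi := Real.smoothTransition.contDiff.comp (sm_aff 4 2)
lemma chi_mono : Monotone chi := fun _ _ h => Real.smoothTransition.monotone (by linarith)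
lemma chi_nonneg (y : ℝ) : 0 ≤ chi y := Real.smoothTransition.nonneg _
lemma chi_le_one (y : ℝ) : chi y ≤ 1 := Real.smoothTransition.le_one _
lemma chi_zero {y : ℝ} (h : y ≤ -(1 / 2)) : chi y = 0 :=
  Real.smoothTransition.zero_of_nonpos (by linarith)
lemma chi_one {y : ℝ} (h : -(1 / 4) ≤ y) : chi y = 1 :=
  Real.smoothTransition.one_of_one_le (by linarith)

/-- the value of the cut-off on the k-th site -/
def cc (k : ℕ) : ℝ := if k ≤ 1 then 0 else 1

lemma chi_site {y : ℝ} (h1 : -(7 / 2) ≤ y) (h2 : y ≤ -(5 / 2)) (k : ℕ) :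
    chi (y / 4 ^ k) = cc k := by
  unfold cc
  split_ifs with h
  · apply chi_zero
    interval_cases k
    · simp; linarith
    · simp; linarith
  · apply chi_one
    have : (16 : ℝ) ≤ 4 ^ k := by
      calc (16 : ℝ) = 4 ^ 2 := by norm_num
        _ ≤ 4 ^ k := pow_le_pow_right₀ (by norm_num) (by omega)
    rw [le_div_iff₀ (by positivity)]
    linarith

/-- the corner map: slope 1/4 on the left of 0 and slope 4 on the right -/
noncomputable def cor : ℝ ≃o ℝ where
  toFun t := if t ≤ 0 then t / 4 else 4 * t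
  invFun t := if t ≤ 0 then 4 * t else t / 4
  left_inv t := by
    by_cases h : t ≤ 0
    · have : t / 4 ≤ 0 := by linarith
      simp only [h, this, if_true]; ring
    · have : ¬ 4 * t ≤ 0 := by linarith
      simp only [h, this, if_false]; ring
  right_inv t := by
    by_cases h : t ≤ 0
    · have : 4 * t ≤ 0 := by linarith
      simp only [h, this, if_true]; ring
    · have : ¬ t / 4 ≤ 0 := by linarith
      simp only [h, this, if_false]; ring
  map_rel_iff' := by
    intro x y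
    simp only [Equiv.coe_fn_mk]
    split_ifs <;> constructor <;> intro <;> linarith

lemma cor_left {t : ℝ} (h : t ≤ 0) : cor t = t / 4 := if_pos h

lemma cor_right {t : ℝ} (h : 0 ≤ t) : cor t = 4 * t := by
  rcases h.eq_or_lt with h | h
  · rw [← h, cor_left le_rfl]; simp
  · exact if_neg (not_le.2 h)

lemma cor_add_symm (t : ℝ) : cor t + cor.symm t = 17 / 4 * t := by
  change (if t ≤ 0 then t / 4 else 4 * t) + (if t ≤ 0 then 4 * t else t / 4) = _
  split_ifs <;> ring

/-- an order isomorphism from a function with positive derivative that is affine near infinity -/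
lemma exists_iso {F : ℝ → ℝ} (hs : Sm F) (hd : ∀ x, 0 < deriv F x) {b c η d η' d' : ℝ}
    (hη : 0 < η) (hη' : 0 < η') (hl : ∀ x, x ≤ b → F x = η * x + d)
    (hr : ∀ x, c ≤ x → F x = η' * x + d') : ∃ G : ℝ ≃o ℝ, (G : ℝ → ℝ) = F := by
  refine ⟨mkIso F (strictMono_of_deriv_pos hd) hs.continuous ?_ ?_, rfl⟩
  · refine Tendsto.congr' ((eventually_ge_atTop c).mono fun x hx => (hr x hx).symm) ?_
    exact tendsto_atTop_add_const_right _ _ (tendsto_id.const_mul_atTop hη')
  · refine Tendsto.congr' ((eventually_le_atBot b).mono fun x hx => (hl x hx).symm) ?_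
    exact tendsto_atBot_add_const_right _ _ (tendsto_id.const_mul_atBot hη)

lemma exists_mid : ∃ G : ℝ ≃o ℝ, (∀ t, t ≤ -(9 / 2) ∨ 1 ≤ t → G t = 1 * t + 3) ∧
    (∀ t, -4 ≤ t → t ≤ 9 / 10 → cor t = G t) ∧ Sm (fun t => G t + G.symm t) := by
  obtain ⟨F₁, s₁, d₁, l₁, r₁⟩ := blend (sm_aff 1 3) (sm_aff (1 / 4) 0)
    (fun x => by rw [deriv_aff]; norm_num) (fun x => by rw [deriv_aff]; norm_num)
    (b := -(9 / 2)) (c := -4) (by norm_num) (fun x h1 h2 => by linarith)
  obtain ⟨F₂, s₂, d₂, l₂, r₂⟩ := blend (sm_aff 4 0) (sm_aff 1 3)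
    (fun x => by rw [deriv_aff]; norm_num) (fun x => by rw [deriv_aff]; norm_num)
    (b := 9 / 10) (c := 1) (by norm_num) (fun x h1 h2 => by linarith)
  obtain ⟨G₁, rfl⟩ := exists_iso s₁ d₁ (by norm_num) (by norm_num) l₁ r₁
  obtain ⟨G₂, rfl⟩ := exists_iso s₂ d₂ (by norm_num) (by norm_num) l₂ r₂
  have z₁ : G₁ 0 = 0 := by rw [r₁ 0 (by norm_num)]; norm_num
  have z₂ : G₂ 0 = 0 := by rw [l₂ 0 (by norm_num)]; norm_num
  let G : ℝ ≃o ℝ := G₁.trans (cor.trans G₂)
  have gl : ∀ t, t ≤ 0 → G t = G₁ t := by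
    intro t ht
    have h : G₁ t ≤ 0 := by rw [← z₁]; exact G₁.monotone ht
    simp only [G, OrderIso.trans_apply]
    rw [cor_left h, l₂ _ (by linarith)]; ring
  have gr : ∀ t, 0 ≤ t → G t = G₂ t := by
    intro t ht
    simp only [G, OrderIso.trans_apply]
    rw [r₁ t (by linarith), cor_right (by linarith)]
    congr 1; ring
  refine ⟨G, fun t ht => ?_, fun t h1 h2 => ?_, ?_⟩
  · rcases ht with ht | ht
    · rw [gl t (by linarith), l₁ t ht]
    · rw [gr t (by linarith), r₂ t ht]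
  · rcases le_total t 0 with h | h
    · rw [gl t h, cor_left h, r₁ t h1]; ring
    · rw [gr t h, cor_right h, l₂ t h2]; ring
  · have e : (fun t => G t + G.symm t)
        = fun t => G₁ t + G₁.symm t + (G₂ t + G₂.symm t) - 17 / 4 * t := by
      funext t
      rcases le_total t 0 with h | h
      · have h1 : G.symm t = G₁.symm t := by
          apply symm_eq_of_eq
          apply gl
          rw [G₁.symm_apply_le, z₁]; exact h
        have h2 : G₂.symm t = t / 4 := by
          apply G₂.injective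
          rw [l₂ (t / 4) (by linarith)]; simp; ring
        rw [gl t h, h1, h2, l₂ t (by linarith)]; ring
      · have h1 : G.symm t = G₂.symm t := by
          apply symm_eq_of_eq
          apply gr
          rw [G₂.le_symm_apply, z₂]; exact h
        have h2 : G₁.symm t = 4 * t := by
          apply G₁.injective
          rw [r₁ (4 * t) (by linarith)]; simp
        rw [gr t h, h1, h2, r₁ t (by linarith)]; ring
    rw [e]
    exact ((s₁.add (sm_symm G₁ s₁ d₁)).add (s₂.add (sm_symm G₂ s₂ d₂))).sub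
      (contDiff_const.mul contDiff_id)

end Pool.Agent.Lib.MP_896b3c_an
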