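import Mathlib
import Pool.Agent.Lib.MP_896b3c_an.Model

set_option autoImplicit false
open Set Filter Topology
open scoped ContDiff

namespace Pool.Agent.Lib.MP_896b3c_an

/-- slope of the k-th site map for a passage of length N -/
noncomputable def eta (N k : ℕ) : ℝ := cc (N - k) / 4 ^ k + cc k / 4 ^ (N - k)

lemma cc_nonneg (k : ℕ) : 0 ≤ cc k := by unfold cc; split_ifs <;> norm_num
lemma cc_le_one (k : ℕ) : cc k ≤ 1 := by unfold cc; split_ifs <;> norm_num
lemma cc_of_two_le {k : ℕ} (h : 2 ≤ k) : cc k = 1 := if_neg (by omega)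
lemma cc_of_le_one {k : ℕ} (h : k ≤ 1) : cc k = 0 := if_pos h

lemma eta_pos {N : ℕ} (hN : 4 ≤ N) (k : ℕ) : 0 < eta N k := by
  unfold eta
  have h1 := cc_nonneg (N - k)
  have h2 := cc_nonneg k
  rcases le_or_gt 2 k with h | h
  · rw [cc_of_two_le h]; positivity
  · rw [cc_of_two_le (show 2 ≤ N - k by omega)]; positivity

lemma eta_le_two (N k : ℕ) : eta N k ≤ 2 := by
  unfold eta
  have h1 : cc (N - k) / 4 ^ k ≤ 1 := by
    rw [div_le_one (by positivity)]; exact (cc_le_one _).trans (one_le_pow₀ (by norm_num))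
  have h2 : cc k / 4 ^ (N - k) ≤ 1 := by
    rw [div_le_one (by positivity)]; exact (cc_le_one _).trans (one_le_pow₀ (by norm_num))
  linarith

lemma eta_zero {N : ℕ} (hN : 4 ≤ N) : eta N 0 = 1 := by
  unfold eta
  rw [cc_of_two_le (show 2 ≤ N - 0 by omega), cc_of_le_one (show 0 ≤ 1 by omega)]; simp

lemma eta_self {N : ℕ} (hN : 4 ≤ N) : eta N N = 1 := by
  unfold eta
  rw [cc_of_two_le (show 2 ≤ N by omega), cc_of_le_one (show N - N ≤ 1 by omega)]; simp

lemma opening (r : ℕ) {δ : ℝ} (hδ : 0 < δ) (n₀ : ℕ) :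
    ∃ m : ℕ, n₀ ≤ m ∧ 5 ≤ m ∧ ∃ (u : ℝ ≃o ℝ) (H : ℝ → ℝ),
      (∀ t, t ≤ -4 ∨ 9 / 10 ≤ t → u t = cor t) ∧
      Sm (fun t => u t + u.symm t - 17 / 4 * t) ∧
      Bd r δ (fun t => u t + u.symm t - 17 / 4 * t) ∧
      (∀ y y', y ≤ y' → y' < 0 → H y ≤ H y') ∧ (∀ y, y < 0 → u (H y) = H (y / 4)) ∧
      (∀ k ≤ m + 1, ∀ y, -(69 / 20) ≤ y → y ≤ -(29 / 10) →
        H (y / 4 ^ k) = eta (m + 1) k * y + cc k * (63 / 10) / 4 ^ (m + 1 - k)) ∧
      (∀ k ≤ m, ∀ y, -(11 / 4) ≤ y → y ≤ -(53 / 20) →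
        H (y / 4 ^ k) = eta m k * y + cc k * (27 / 5) / 4 ^ (m - k)) := by
  obtain ⟨B, sB, dB, pB, B1, Bl1, Bl2⟩ := exists_B
  have Bm : StrictMono B := strictMono_of_deriv_pos dB
  have Bn : ∀ τ (k : ℕ), B (τ + k) = 4 ^ k * B τ := by
    intro τ k
    induction k with
    | zero => simp
    | succ k ih => rw [Nat.cast_succ, ← add_assoc, B1, ih, pow_succ]; ring
  have B0 : B 0 = 57 / 20 := by
    rw [Bl1 0 (by rw [SS_zero]) (by rw [SS_zero]; norm_num), SS_zero]; norm_num
  have Bm1 : B (-1) = 57 / 80 := by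
    have := B1 (-1); rw [neg_add_cancel, B0] at this; linarith
  have Bm2 : B (-2) = 57 / 320 := by
    have := B1 (-2); rw [show (-2 : ℝ) + 1 = -1 by norm_num, Bm1] at this; linarith
  let Q : ℝ → ℝ := fun τ => chi (SS τ) * B τ
  let P : ℝ → ℝ := fun τ => chi (-B τ) * SS τ
  have sQ : Sm Q := (sm_chi.comp sm_SS).mul sB
  have sP : Sm P := (sm_chi.comp sB.neg).mul sm_SS
  have Qm : Monotone Q := fun x y h =>
    mul_le_mul (chi_mono (SS_strictMono.monotone h)) (Bm.monotone h) (pB x).le (chi_nonneg _)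
  have Pm : Monotone P := by
    intro x y h
    have h1 : chi (-B y) ≤ chi (-B x) := chi_mono (neg_le_neg (Bm.monotone h))
    have h2 := SS_strictMono.monotone h
    have h3 := SS_neg y
    have h4 := chi_nonneg (-B x)
    simp only [P]
    nlinarith
  have Q0 : ∀ τ, τ ≤ 1 → Q τ = 0 := by
    intro τ h
    have := SS_strictMono.monotone h
    rw [SS_one] at this
    simp only [Q]; rw [chi_zero (by linarith), zero_mul]
  have Q1 : ∀ τ, 2 ≤ τ → Q τ = B τ := by
    intro τ h
    have := SS_strictMono.monotone h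
    rw [SS_two] at this
    simp only [Q]; rw [chi_one (by linarith), one_mul]
  have P1 : ∀ τ, τ ≤ -2 → P τ = SS τ := by
    intro τ h
    have := Bm.monotone h
    rw [Bm2] at this
    simp only [P]; rw [chi_one (by linarith), one_mul]
  have P0 : ∀ τ, -1 ≤ τ → P τ = 0 := by
    intro τ h
    have := Bm.monotone h
    rw [Bm1] at this
    simp only [P]; rw [chi_zero (by linarith), zero_mul]
  let Ei : ℝ → ℝ := fun τ => Q (τ + 1) + Q (τ - 1) - 17 / 4 * Q τ
  let Eo : ℝ → ℝ := fun τ => P (τ + 1) + P (τ - 1) - 17 / 4 * P τ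
  have sE : ∀ R : ℝ → ℝ, Sm R → Sm fun τ => R (τ + 1) + R (τ - 1) - 17 / 4 * R τ := fun R hR =>
    ((hR.comp (contDiff_id.add contDiff_const)).add (hR.comp (contDiff_id.sub contDiff_const))).sub
      (contDiff_const.mul hR)
  have Ei0 : ∀ τ, τ < 0 ∨ 3 < τ → Ei τ = 0 := by
    intro τ h
    simp only [Ei]
    rcases h with h | h
    · rw [Q0 _ (by linarith), Q0 _ (by linarith), Q0 _ (by linarith)]; ring
    · have := B1 (τ - 1)
      rw [sub_add_cancel] at this
      rw [Q1 _ (by linarith), Q1 _ (by linarith), Q1 _ (by linarith), B1]; linarith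
  have Eo0 : ∀ τ, τ < -3 ∨ 0 < τ → Eo τ = 0 := by
    intro τ h
    simp only [Eo]
    rcases h with h | h
    · have := SS_add_one (τ - 1)
      rw [sub_add_cancel] at this
      rw [P1 _ (by linarith), P1 _ (by linarith), P1 _ (by linarith), SS_add_one]; linarith
    · rw [P0 _ (by linarith), P0 _ (by linarith), P0 _ (by linarith)]; ring
  obtain ⟨Mi, hMi0, hMi⟩ := est sm_SS sQ (sE Q sQ) deriv_SS_pos (fun _ => Qm.deriv_nonneg) Ei0 r
  obtain ⟨Mo, hMo0, hMo⟩ := est sB sP (sE P sP) dB (fun _ => Pm.deriv_nonneg) Eo0 r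
  obtain ⟨m₁, hm₁⟩ := exists_pow_lt_of_lt_one (show 0 < δ / (Mi + Mo + 1) by positivity)
    (show (1 / 4 : ℝ) < 1 by norm_num)
  refine ⟨max (max n₀ 5) m₁, (le_max_left _ _).trans (le_max_left _ _),
    (le_max_right _ _).trans (le_max_left _ _), ?_⟩
  set m := max (max n₀ 5) m₁ with hm
  have hm5 : 5 ≤ m := (le_max_right _ _).trans (le_max_left _ _)
  have hmm : m₁ ≤ m := le_max_right _ _
  set n : ℕ := m + 1 with hn
  have hn6 : (6 : ℝ) ≤ n := by exact_mod_cast (show 6 ≤ n by omega)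
  set ε : ℝ := 1 / 4 ^ n with hε
  have hε0 : 0 < ε := by positivity
  have hε1 : ε ≤ 1 := by rw [hε, div_le_one (by positivity)]; exact one_le_pow₀ (by norm_num)
  have hεδ : ε * (Mi + Mo) ≤ δ := by
    have h1 : ε ≤ (1 / 4) ^ m₁ := by
      rw [hε, ← one_div_pow]
      exact pow_le_pow_of_le_one (by norm_num) (by norm_num) (by omega)
    rw [lt_div_iff₀ (by positivity)] at hm₁
    nlinarith
  have hS : ∀ τ, ε * SS (τ - n) = SS τ := by
    intro τ
    have := SS_add_nat (τ - n) n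
    rw [sub_add_cancel] at this
    rw [this, hε]; ring
  have hB : ∀ τ, ε * B τ = B (τ - n) := by
    intro τ
    have := Bn (τ - n) n
    rw [sub_add_cancel] at this
    rw [this, hε]; field_simp
  let hF : ℝ → ℝ := fun τ => ε * (P (τ - n) + Q τ)
  have sPn : Sm fun τ => P (τ - n) := sP.comp (contDiff_id.sub contDiff_const)
  have shF : Sm hF := contDiff_const.mul (sPn.add sQ)
  have dhF : ∀ τ, 0 < deriv hF τ := by
    intro τ
    have h1 : HasDerivAt hF (ε * (deriv P (τ - n) + deriv Q τ)) τ :=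
      (((sP.diff _).hasDerivAt.comp_sub_const τ _).add (sQ.diff τ).hasDerivAt).const_mul ε
    rw [h1.deriv]
    apply mul_pos hε0
    rcases lt_or_ge 2 τ with h | h
    · have : Q =ᶠ[𝓝 τ] B := (eventually_gt_nhds h).mono fun y hy => Q1 y hy.le
      rw [this.deriv_eq]
      exact add_pos_of_nonneg_of_pos Pm.deriv_nonneg (dB τ)
    · have : P =ᶠ[𝓝 (τ - n)] SS :=
        (eventually_lt_nhds (show τ - n < -2 by linarith)).mono fun y hy => P1 y hy.le
      rw [this.deriv_eq]
      exact add_pos_of_pos_of_nonneg (deriv_SS_pos _) Qm.deriv_nonneg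
  have hin : ∀ τ : ℝ, τ ≤ n - 2 → hF τ = SS τ + ε * Q τ := by
    intro τ h
    simp only [hF]; rw [P1 _ (by linarith), mul_add, hS]
  have hout : ∀ τ, 2 ≤ τ → hF τ = B (τ - n) + ε * P (τ - n) := by
    intro τ h
    simp only [hF]; rw [Q1 _ h, mul_add, hB]; ring
  have htop : Tendsto hF atTop atTop := by
    apply tendsto_atTop_atTop_of_monotone (strictMono_of_deriv_pos dhF).monotone
    intro y
    obtain ⟨k, hk⟩ := pow_unbounded_of_one_lt y (show (1 : ℝ) < 4 by norm_num)
    refine ⟨n + k, ?_⟩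
    have hk0 : (0 : ℝ) ≤ k := by positivity
    have h1 := Bn 0 k
    rw [zero_add, B0] at h1
    rw [hout _ (by linarith), add_sub_cancel_left, P0 _ (by linarith), h1]
    have : (0 : ℝ) < 4 ^ k := by positivity
    linarith
  have hbot : Tendsto hF atBot atBot := by
    apply tendsto_atBot_atBot_of_monotone (strictMono_of_deriv_pos dhF).monotone
    intro y
    obtain ⟨k, hk⟩ := pow_unbounded_of_one_lt (-y) (show (1 : ℝ) < 4 by norm_num)
    refine ⟨-k, ?_⟩
    have hk0 : (0 : ℝ) ≤ k := by positivity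
    have h1 := SS_add_nat (-k) k
    rw [neg_add_cancel, SS_zero, eq_div_iff (by positivity)] at h1
    rw [hin _ (by linarith), Q0 _ (by linarith), ← h1]
    have : (0 : ℝ) < 4 ^ k := by positivity
    linarith
  let h : ℝ ≃o ℝ := mkIso hF (strictMono_of_deriv_pos dhF) shF.continuous htop hbot
  have hh : ∀ τ, h τ = hF τ := fun _ => rfl
  let u : ℝ ≃o ℝ := h.symm.trans ((OrderIso.addRight 1).trans h)
  have hu : ∀ τ, u (h τ) = h (τ + 1) := fun τ => by simp [u]
  have hu' : ∀ τ, u.symm (h τ) = h (τ - 1) := fun τ => by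
    apply u.injective; rw [hu]; simp
  let h' : ℝ ≃o ℝ := (OrderIso.addRight (n : ℝ)).trans h
  have hh' : ∀ τ, h' τ = hF (τ + n) := fun _ => rfl
  have hh'' : ∀ τ, h'.symm (h τ) = τ - n := fun τ => by
    apply h'.injective; rw [h'.apply_symm_apply, hh', sub_add_cancel, hh]
  have sh' : Sm h' := shF.comp (contDiff_id.add contDiff_const)
  have dh' : ∀ τ, 0 < deriv h' τ := by
    intro τ
    have : HasDerivAt h' (deriv hF (τ + n)) τ := (shF.diff _).hasDerivAt.comp_add_const τ _
    rw [this.deriv]; exact dhF _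
  have eD : (fun t => u t + u.symm t - 17 / 4 * t)
      = fun t => ε * (Ei (h.symm t) + Eo (h'.symm t)) := by
    funext t
    obtain ⟨τ, rfl⟩ := h.surjective t
    rw [hu, hu', hh'', h.symm_apply_apply, hh, hh, hh]
    simp only [hF, Ei, Eo]
    rw [show τ + 1 - n = τ - n + 1 by ring, show τ - 1 - n = τ - n - 1 by ring]
    ring
  have s1 : Sm fun t => Ei (h.symm t) := (sE Q sQ).comp (sm_symm h shF dhF)
  have s2 : Sm fun t => Eo (h'.symm t) := (sE P sP).comp (sm_symm h' sh' dh')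
  have site : ∀ (N j k : ℕ) (y e : ℝ), N + j = n → k ≤ N → -(7 / 2) ≤ y → y ≤ -(5 / 2) →
      5 / 2 ≤ y + e → y + e ≤ 7 / 2 → B (TT y) = 4 ^ j * (y + e) →
      h (TT (y / 4 ^ k)) = eta N k * y + cc k * e / 4 ^ (N - k) := by
    intro N j k y e hN hk h1 h2 h3 h4 h5
    have hy : y < 0 := by linarith
    have a1 : SS (TT y + k) = y / 4 ^ k := by rw [SS_add_nat, SS_TT hy]
    have a2 : ε * B (TT y + k) = (y + e) / 4 ^ (N - k) := by
      obtain ⟨i, rfl⟩ := Nat.exists_eq_add_of_le hk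
      rw [Bn, h5, hε, ← hN, Nat.add_sub_cancel_left, pow_add, pow_add]
      field_simp
    rw [TT_div_pow hy, hh]
    simp only [hF, P, Q]
    rw [← hB, a2, a1, ← neg_div, chi_site (by linarith) (by linarith), chi_site h1 h2, mul_add,
      mul_left_comm, hS, a1, mul_left_comm, a2]
    unfold eta
    ring
  refine ⟨u, fun y => h (TT y), fun t ht => ?_, ?_, ?_, fun y y' h1 h2 => ?_, fun y hy => ?_,
    fun k hk y h1 h2 => ?_, fun k hk y h1 h2 => ?_⟩
  · obtain ⟨τ, rfl⟩ := h.surjective t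
    rw [hu]
    rcases ht with ht | ht
    · have h1 : τ ≤ 0 := by
        by_contra hc
        have := h.monotone (not_le.1 hc).le
        rw [hh 0, hin _ (by linarith), Q0 _ (by linarith), SS_zero] at this
        linarith
      rw [cor_left (by linarith), hh, hh, hin _ (by linarith), hin _ (by linarith),
        Q0 _ (by linarith), Q0 _ (by linarith), SS_add_one]
      ring
    · have h1 : (n : ℝ) - 1 ≤ τ := by
        by_contra hc
        have := h.monotone (not_le.1 hc).le
        rw [hh (n - 1), hout _ (by linarith), show (n : ℝ) - 1 - n = -1 by ring, P0 _ le_rfl,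
          Bm1] at this
        linarith
      rw [cor_right (by linarith), hh, hh, hout _ (by linarith), hout _ (by linarith),
        P0 _ (by linarith), P0 _ (by linarith), show τ + 1 - n = τ - n + 1 by ring, B1]
      ring
  · rw [eD]; exact contDiff_const.mul (s1.add s2)
  · rw [eD]
    refine (Bd.const_mul hε0.le (Bd.add s1 s2
      (hMi ε hε0.le hε1 h shF dhF fun τ h1 h2 => hin τ (by linarith))
      (hMo ε hε0.le hε1 h' sh' dh' fun τ h1 h2 => ?_))).mono hεδ
    rw [hh', hout _ (by linarith), add_sub_cancel_right]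
  · exact h.monotone (TT_mono h1 h2)
  · have := TT_div_pow hy 1
    simp only [pow_one, Nat.cast_one] at this
    simp only [hu, this]
  · have hy : y < 0 := by linarith
    refine site n 0 k y (63 / 10) rfl hk (by linarith) (by linarith) (by linarith) (by linarith) ?_
    rw [Bl1 _ (by rw [SS_TT hy]; exact h1) (by rw [SS_TT hy]; exact h2), SS_TT hy]; ring
  · have hy : y < 0 := by linarith
    refine site m 1 k y (27 / 5) rfl hk (by linarith) (by linarith) (by linarith) (by linarith) ?_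
    rw [Bl2 _ (by rw [SS_TT hy]; exact h1) (by rw [SS_TT hy]; exact h2), SS_TT hy]; ring

end Pool.Agent.Lib.MP_896b3c_an
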