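import Mathlib
import Pool.Agent.Lib.MP_896b3c_an.Opening

set_option autoImplicit false
open Set Filter Topology
open scoped ContDiff

namespace Pool.Agent.Lib.MP_896b3c_an

variable {a s : ℝ} {K : Cont} {ψ : ℝ → ℝ} {C : Lift → Prop}

lemma kick_zero {ar : Arrow} {f : ℝ ≃o ℝ} (hf : ar.adm f) {t : ℝ}
    (ht : (t ≤ ar.b ∧ t ≤ ar.A ar.b) ∨ (ar.c ≤ t ∧ ar.A ar.c ≤ t)) : ar.kick f t = 0 := by
  have h1 : f t = ar.A t := hf t (ht.imp And.left And.left)
  have h2 : f.symm t = ar.A.symm t := by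
    apply symm_eq_of_eq
    apply hf
    rcases ht with ht | ht
    · left; rw [ar.A.symm_apply_le]; exact ht.2
    · right; rw [ar.A.le_symm_apply]; exact ht.2
  simp [Arrow.kick, h1, h2]

lemma step_extend (hK : Mono K) {b c η d η' d' ϖ : ℝ} {q : ℕ} {p : ℤ} (hη : 0 < η) (hη' : 0 < η')
    (hϖ : 0 < ϖ) (hbc : b ≤ c) {R : Arrow} (hRw : 0 < R.w) {e : ℝ}
    (h1 : R.b ≤ η * b + d) (h2 : η * c + d ≤ e) (h3 : e ≤ R.c)
    (hu : ∀ t, b ≤ t → t ≤ c → R.A (η * t + d) = η' * t + d')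
    (H : step a s ⟨b, c, aff η d hη, ϖ, q, p⟩ (step a s R K) ψ C) :
    step a s ⟨b, c, aff η' d' hη', ϖ * R.w / (R.w * (η' / η) + ϖ / η), R.q + q, p + R.p⟩
      (step a s { R with b := e } K) ψ C := by
  have hbc' : η * b + d ≤ η * c + d := by nlinarith
  have hηη : 0 < η' / η := by positivity
  have H1 : step a s ⟨b, c, aff η d hη, ϖ, q, p⟩
      (step a s ⟨η * b + d, η * c + d, aff (η' / η) (d' - η' / η * d) hηη, R.w, R.q, R.p⟩
        (step a s { R with b := e } K)) ψ C := by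
    refine step_inner _ (fun ψ C h => ?_) H
    have h4 := step_split hK e (by linarith) h3 h
    refine step_shrink (ar := { R with c := e }) (hK.step _) (η * b + d) (η * c + d) _ h1 h2 hbc'
      (fun y h5 h6 => ?_) h4
    have h7 := hu ((y - d) / η) (by rw [le_div_iff₀ hη]; linarith)
      (by rw [div_le_iff₀ hη]; linarith)
    have h8 : η * ((y - d) / η) + d = y := by field_simp; ring
    rw [h8] at h7
    change _ = R.A y
    rw [h7, aff_apply]; field_simp; ring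
  have H2 := step_compose (ar := ⟨b, c, aff η d hη, ϖ, q, p⟩)
    (br := ⟨η * b + d, η * c + d, aff (η' / η) (d' - η' / η * d) hηη, R.w, R.q, R.p⟩)
    (hK.step _) hη hηη (fun _ => rfl) (fun _ => rfl) hϖ hRw rfl rfl H1
  refine step_shrink (hK.step _) b c (aff η' d' hη') le_rfl le_rfl hbc (fun t _ _ => ?_) H2
  simp only [OrderIso.trans_apply, aff_apply]
  field_simp; ring

lemma chain (hK : Mono K) {w wJ : ℝ} (hw : 0 < w) (hwJ : 0 < wJ) {q qJ : ℕ} {p pJ : ℤ}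
    {m : ℕ} (hm : 5 ≤ m) {u : ℝ ≃o ℝ} {H : ℝ → ℝ}
    (Hm : ∀ y y', y ≤ y' → y' < 0 → H y ≤ H y') (Hu : ∀ y, y < 0 → u (H y) = H (y / 4))
    (H1 : ∀ k ≤ m + 1, ∀ y, -(69 / 20) ≤ y → y ≤ -(29 / 10) →
        H (y / 4 ^ k) = eta (m + 1) k * y + cc k * (63 / 10) / 4 ^ (m + 1 - k))
    (H2 : ∀ k ≤ m, ∀ y, -(11 / 4) ≤ y → y ≤ -(53 / 20) →
        H (y / 4 ^ k) = eta m k * y + cc k * (27 / 5) / 4 ^ (m - k))
    (HH : step a s ⟨-4, 9 / 10, u, w, q, p⟩
      (step a s ⟨5 / 2, 7 / 2, aff 1 (-6) one_pos, wJ, qJ, pJ⟩ K) ψ C) :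
    ∃ ϖ ϖ' : ℝ, 0 < ϖ ∧ 0 < ϖ' ∧ ϖ * (m + 1) ≤ 4 * w ∧
      step a s ⟨51 / 20, 31 / 10, aff 1 (3 / 10) one_pos, ϖ, (m + 1) * q + qJ, pJ + (m + 1) * p⟩
        (step a s ⟨13 / 4, 67 / 20, aff 1 (-(3 / 5)) one_pos, ϖ', m * q + qJ, pJ + m * p⟩ K)
        ψ C := by
  have e1 : ∀ k, 0 < eta (m + 1) k := eta_pos (by omega)
  have e2 : ∀ k, 0 < eta m k := eta_pos (by omega)
  let D : ℕ → ℝ := fun k => cc k * (63 / 10) / 4 ^ (m + 1 - k) - 6 * eta (m + 1) k
  let D' : ℕ → ℝ := fun k => cc k * (27 / 5) / 4 ^ (m - k) - 6 * eta m k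
  have G1 : ∀ k ≤ m + 1, ∀ t, 51 / 20 ≤ t → t ≤ 31 / 10 →
      eta (m + 1) k * t + D k = H ((t - 6) / 4 ^ k) := by
    intro k hk t h1 h2
    rw [H1 k hk _ (by linarith) (by linarith)]; simp only [D]; ring
  have G2 : ∀ k ≤ m, ∀ t, 13 / 4 ≤ t → t ≤ 67 / 20 →
      eta m k * t + D' k = H ((t - 6) / 4 ^ k) := by
    intro k hk t h1 h2
    rw [H2 k hk _ (by linarith) (by linarith)]; simp only [D']; ring
  have Hs : ∀ (k : ℕ) (y : ℝ), y < 0 → u (H (y / 4 ^ k)) = H (y / 4 ^ (k + 1)) := by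
    intro k y hy
    rw [Hu _ (div_neg_of_neg_of_pos hy (by positivity)), pow_succ, div_div]
  have Hk : ∀ (k : ℕ) (y y' : ℝ), y ≤ y' → y' < 0 → H (y / 4 ^ k) ≤ H (y' / 4 ^ k) :=
    fun k y y' h1 h2 => Hm _ _ (div_le_div_of_nonneg_right h1 (by positivity))
      (div_neg_of_neg_of_pos h2 (by positivity))
  have Htop : H (-(29 / 10) / 4 ^ m) ≤ 9 / 10 := by
    rw [H1 m (by omega) _ (by norm_num) le_rfl]
    unfold eta
    rw [show m + 1 - m = 1 by omega, cc_of_le_one le_rfl, cc_of_two_le (show 2 ≤ m by omega)]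
    norm_num
  have Hle : ∀ k ≤ m, ∀ y, y ≤ -(29 / 10) → H (y / 4 ^ k) ≤ 9 / 10 := by
    intro k hk y hy
    refine le_trans (Hm _ _ ?_ (div_neg_of_neg_of_pos (by norm_num) (by positivity))) Htop
    rw [div_le_div_iff₀ (by positivity) (by positivity)]
    have h1 : (4 : ℝ) ^ k ≤ 4 ^ m := pow_le_pow_right₀ (by norm_num) hk
    have h2 : (0 : ℝ) < 4 ^ k := by positivity
    nlinarith
  -- one step of the main chain
  have stepC : ∀ k ≤ m, ∀ (ϖ e : ℝ) (qq : ℕ) (pp : ℤ) (K' : Cont), Mono K' → 0 < ϖ →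
      ϖ * eta (m + 1) k * k ≤ 4 * w → H (-(29 / 10) / 4 ^ k) ≤ e → e ≤ 9 / 10 →
      step a s ⟨51 / 20, 31 / 10, aff _ (D k) (e1 k), ϖ, qq, pp⟩
        (step a s ⟨H (-(69 / 20) / 4 ^ k), 9 / 10, u, w, q, p⟩ K') ψ C →
      ∃ ϖ₁, 0 < ϖ₁ ∧ ϖ₁ * eta (m + 1) (k + 1) * ((k + 1 : ℕ) : ℝ) ≤ 4 * w ∧
        step a s ⟨51 / 20, 31 / 10, aff _ (D (k + 1)) (e1 (k + 1)), ϖ₁, q + qq, pp + p⟩
          (step a s ⟨e, 9 / 10, u, w, q, p⟩ K') ψ C := by
    intro k hk ϖ e qq pp K' hK' hϖ hb he he' h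
    have h1 := e1 k
    have h2 := e1 (k + 1)
    have h3 := eta_le_two (m + 1) k
    have h4 := eta_le_two (m + 1) (k + 1)
    refine ⟨_, ?_, ?_, step_extend hK' (e1 k) (e1 (k + 1)) hϖ (by norm_num) hw ?_ ?_ he' ?_ h⟩
    · positivity
    · simp only
      push_cast
      set x := eta (m + 1) k
      set y := eta (m + 1) (k + 1)
      have e3 : ϖ * w / (w * (y / x) + ϖ / x) * y = ϖ * w * x * y / (w * y + ϖ) := by
        field_simp
      rw [e3, div_mul_eq_mul_div, div_le_iff₀ (by positivity)]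
      have h5 : x * y ≤ 4 := by nlinarith
      have h6 : ϖ * x * k * (w * y) ≤ 4 * w * (w * y) :=
        mul_le_mul_of_nonneg_right hb (by positivity)
      have h7 : ϖ * w * (x * y) ≤ ϖ * w * 4 := mul_le_mul_of_nonneg_left h5 (by positivity)
      nlinarith
    · rw [G1 k (by omega) _ le_rfl (by norm_num)]; norm_num
    · rw [G1 k (by omega) _ (by norm_num) le_rfl]; norm_num at he ⊢; exact he
    · intro t h5 h6
      rw [G1 k (by omega) t h5 h6, G1 (k + 1) (by omega) t h5 h6]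
      exact Hs k _ (by linarith)
  have main : ∀ k ≤ m, ∃ (ϖ ϖ' : ℝ) (qq : ℕ) (pp : ℤ), 0 < ϖ ∧ 0 < ϖ' ∧
      ϖ * eta (m + 1) k * k ≤ 4 * w ∧ qq = k * q + qJ ∧ pp = pJ + k * p ∧
      step a s ⟨51 / 20, 31 / 10, aff _ (D k) (e1 k), ϖ, qq, pp⟩
        (step a s ⟨13 / 4, 67 / 20, aff _ (D' k) (e2 k), ϖ', qq, pp⟩
          (step a s ⟨H (-(69 / 20) / 4 ^ k), 9 / 10, u, w, q, p⟩ K)) ψ C := by
    intro k
    induction k with
    | zero =>
      intro _
      refine ⟨wJ, wJ, qJ, pJ, hwJ, hwJ, by simp; positivity, by simp, by simp, ?_⟩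
      have z1 : eta (m + 1) 0 = 1 := eta_zero (by omega)
      have z2 : eta m 0 = 1 := eta_zero (by omega)
      have z3 : cc 0 = 0 := cc_of_le_one (by omega)
      have z4 : H (-(69 / 20) / 4 ^ 0) = -(69 / 20) := by
        rw [H1 0 (by omega) _ le_rfl (by norm_num), z1, z3]; simp
      have a1 := step_shrink (hK.step _) (H (-(69 / 20) / 4 ^ 0)) (9 / 10) u
        (by rw [z4]; norm_num) le_rfl (by rw [z4]; norm_num) (fun _ _ _ => rfl) HH
      have a2 := step_swap hK a1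
      have a3 := step_split (hK.step _) (16 / 5) (by norm_num) (by norm_num) a2
      have a4 := step_shrink ((hK.step _).step _) (51 / 20) (31 / 10) (aff _ (D 0) (e1 0))
        (by norm_num) (by norm_num) (by norm_num)
        (fun t _ _ => by simp only [aff_apply, D, z1, z3]; ring) a3
      refine step_inner _ (fun ψ C h => ?_) a4
      exact step_shrink (hK.step _) (13 / 4) (67 / 20) (aff _ (D' 0) (e2 0))
        (by norm_num) (by norm_num) (by norm_num)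
        (fun t _ _ => by simp only [aff_apply, D', z2, z3]; ring) h
    | succ k ih =>
      intro hk
      obtain ⟨ϖ, ϖ', qq, pp, hϖ, hϖ', hb, hq, hp, h⟩ := ih (by omega)
      have a1 := step_inner _ (fun ψ C h => step_swap hK h) h
      have b1 : H (-(11 / 4) / 4 ^ k) ≤ H (-(69 / 20) / 4 ^ (k + 1)) := by
        rw [pow_succ', ← div_div]; exact Hk k _ _ (by norm_num) (by norm_num)
      have b2 : H (-(69 / 20) / 4 ^ (k + 1)) ≤ 9 / 10 := Hle _ hk _ (by norm_num)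
      obtain ⟨ϖ₁, hϖ₁, hb₁, a2⟩ := stepC k (by omega) ϖ (H (-(11 / 4) / 4 ^ k)) qq pp _
        (hK.step _) hϖ hb (Hk k _ _ (by norm_num) (by norm_num)) (b1.trans b2) a1
      have a3 := step_inner _ (fun ψ C h => step_swap hK h) a2
      have h1 := e2 k
      have h2 := e2 (k + 1)
      refine ⟨ϖ₁, ϖ' * w / (w * (eta m (k + 1) / eta m k) + ϖ' / eta m k), q + qq, pp + p, hϖ₁,
        by positivity, hb₁, by rw [hq]; ring, by rw [hp]; push_cast; ring, ?_⟩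
      refine step_inner _ (fun ψ C h => ?_) a3
      refine step_extend hK (e2 k) (e2 (k + 1)) hϖ' (by norm_num) hw ?_ ?_ b2 ?_ h
      · rw [G2 k (by omega) _ le_rfl (by norm_num)]; norm_num
      · rw [G2 k (by omega) _ (by norm_num) le_rfl, pow_succ', ← div_div]
        exact Hk k _ _ (by norm_num) (by norm_num)
      · intro t h5 h6
        rw [G2 k (by omega) t h5 h6, G2 (k + 1) hk t h5 h6]
        exact Hs k _ (by linarith)
  obtain ⟨ϖ, ϖ', qq, pp, hϖ, hϖ', hb, hq, hp, h⟩ := main m le_rfl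
  have a1 := step_inner _ (fun ψ C h => step_swap hK h) h
  obtain ⟨ϖ₁, hϖ₁, hb₁, a2⟩ := stepC m le_rfl ϖ (9 / 10) qq pp _ (hK.step _) hϖ hb Htop le_rfl a1
  have a3 := step_inner _ (fun ψ C h => step_drop (hK.step _) h) a2
  have z1 : eta (m + 1) (m + 1) = 1 := eta_self (by omega)
  have z2 : eta m m = 1 := eta_self (by omega)
  have z3 : cc (m + 1) = 1 := cc_of_two_le (by omega)
  have z4 : cc m = 1 := cc_of_two_le (by omega)
  refine ⟨ϖ₁, ϖ', hϖ₁, hϖ', by rw [z1] at hb₁; push_cast at hb₁; linarith, ?_⟩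
  have q1 : (m + 1) * q + qJ = q + qq := by rw [hq]; ring
  have q2 : pJ + (m + 1) * p = pp + p := by rw [hp]; ring
  rw [q1, q2, ← hq, ← hp]
  have a4 := step_shrink (hK.step _) (51 / 20) (31 / 10) (aff 1 (3 / 10) one_pos)
    le_rfl le_rfl (by norm_num)
    (fun t _ _ => by simp only [aff_apply, D, z1, z3, Nat.sub_self]; ring) a3
  refine step_inner _ (fun ψ C h => ?_) a4
  exact step_shrink hK (13 / 4) (67 / 20) (aff 1 (-(3 / 5)) one_pos)
    le_rfl le_rfl (by norm_num)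
    (fun t _ _ => by simp only [aff_apply, D', z2, z4, Nat.sub_self]; ring) h

end Pool.Agent.Lib.MP_896b3c_an
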