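import Mathlib
import Pool.Agent.Lib.MP_896b3c_an.Chain

set_option autoImplicit false
open Set Filter Topology
open scoped ContDiff

namespace Pool.Agent.Lib.MP_896b3c_an

/-- the terminal continuation: a circle homeomorphism with prescribed potential -/
def K0 : Cont := fun ψ C => ∃ g : Lift,
  (∀ x, -(1 / 2) ≤ x → x ≤ 1 / 2 → g.toIso x + g.toIso.symm x - 2 * x = ψ x) ∧
    g.toIso (1 / 2) = 5 / 6 ∧ C g

lemma mono_K0 : Mono K0 := fun _ _ _ h ⟨g, h1, h2, h3⟩ => ⟨g, h1, h2, h g h3⟩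

/-- periodisation of a map that is the identity outside (-1/2, 1/2) -/
noncomputable def perF (κ : ℝ → ℝ) (x : ℝ) : ℝ := κ (x - ⌊x + 1 / 2⌋) + ⌊x + 1 / 2⌋

lemma floor_perF (κ : ℝ ≃o ℝ) (h1 : κ (-(1 / 2)) = -(1 / 2)) (h2 : κ (1 / 2) = 1 / 2) (x : ℝ) :
    ⌊perF κ x + 1 / 2⌋ = ⌊x + 1 / 2⌋ := by
  have a1 := Int.floor_le (x + 1 / 2)
  have a2 := Int.lt_floor_add_one (x + 1 / 2)
  have b1 := κ.monotone (show -(1 / 2) ≤ x - ⌊x + 1 / 2⌋ by linarith)
  have b2 := κ.strictMono (show x - ⌊x + 1 / 2⌋ < 1 / 2 by linarith)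
  rw [h1] at b1
  rw [h2] at b2
  rw [Int.floor_eq_iff]
  unfold perF
  constructor <;> linarith

lemma exists_per (κ : ℝ ≃o ℝ) (h1 : κ (-(1 / 2)) = -(1 / 2)) (h2 : κ (1 / 2) = 1 / 2) :
    ∃ g : Lift, ∀ x, -(1 / 2) ≤ x → x ≤ 1 / 2 → g.toIso x = κ x := by
  have h1' : κ.symm (-(1 / 2)) = -(1 / 2) := by rw [κ.symm_apply_eq, h1]
  have h2' : κ.symm (1 / 2) = 1 / 2 := by rw [κ.symm_apply_eq, h2]
  have hm : StrictMono (perF κ) := by
    intro x y hxy
    have hf : ⌊x + 1 / 2⌋ ≤ ⌊y + 1 / 2⌋ := Int.floor_le_floor (by linarith)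
    rcases hf.eq_or_lt with h | h
    · unfold perF
      rw [h]
      have := κ.strictMono (show x - ⌊y + 1 / 2⌋ < y - ⌊y + 1 / 2⌋ by linarith)
      linarith
    · have a1 := Int.lt_floor_add_one (perF κ x + 1 / 2)
      have a2 := Int.floor_le (perF κ y + 1 / 2)
      rw [floor_perF κ h1 h2] at a1 a2
      have : ((⌊x + 1 / 2⌋ : ℤ) : ℝ) + 1 ≤ ⌊y + 1 / 2⌋ := by exact_mod_cast h
      linarith
  have hr : Function.RightInverse (perF κ.symm) (perF κ) := by
    intro y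
    have := floor_perF κ.symm h1' h2' y
    rw [perF, this, perF]
    simp
  refine ⟨⟨StrictMono.orderIsoOfRightInverse (perF κ) hm (perF κ.symm) hr, fun x => ?_⟩,
    fun x h3 h4 => ?_⟩
  · change perF κ (x + 1) = perF κ x + 1
    unfold perF
    rw [show x + 1 + 1 / 2 = x + 1 / 2 + 1 by ring, Int.floor_add_one]
    push_cast
    rw [show x + 1 - (⌊x + 1 / 2⌋ + 1) = x - ⌊x + 1 / 2⌋ by ring]
    ring
  · change perF κ x = κ x
    unfold perF
    rcases h4.eq_or_lt with h | h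
    · rw [h, h2]
      have : ⌊(1 / 2 + 1 / 2 : ℝ)⌋ = 1 := by norm_num
      rw [this]
      push_cast
      rw [show (1 / 2 - 1 : ℝ) = -(1 / 2) by ring, h1]; ring
    · have : ⌊x + 1 / 2⌋ = 0 := Int.floor_eq_iff.2 ⟨by simp; linarith, by simp; linarith⟩
      rw [this]; simp

lemma base : step (1 / 36) (1 / 9) ⟨-(9 / 2), 1, aff 1 3 one_pos, 1, 1, 0⟩
    (step (1 / 36) (1 / 9) ⟨5 / 2, 7 / 2, aff 1 (-6) one_pos, 1, 1, 1⟩ K0) (fun _ => 0)
    (fun _ => True) := by
  intro f hf fJ hfJ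
  have hf' : ∀ t, t ≤ -(9 / 2) ∨ 1 ≤ t → f t = t + 3 := fun t ht => by
    rw [hf t ht]; simp
  have hfJ' : ∀ t, t ≤ 5 / 2 ∨ 7 / 2 ≤ t → fJ t = t - 6 := fun t ht => by
    rw [hfJ t ht]; simp; ring
  let κt : ℝ ≃o ℝ := fJ.trans ((OrderIso.addRight 6).trans (f.trans (OrderIso.addRight (-3))))
  have hκt : ∀ t, κt t = f (fJ t + 6) - 3 := fun t => by simp [κt]; ring
  have kl : ∀ t, t ≤ 5 / 2 → κt t = f t - 3 := fun t ht => by
    rw [hκt, hfJ' t (Or.inl ht)]; simp
  have kr : ∀ t, 1 ≤ t → κt t = fJ t + 6 := fun t ht => by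
    have : fJ 1 ≤ fJ t := fJ.monotone ht
    rw [hfJ' 1 (Or.inl (by norm_num))] at this
    rw [hκt, hf' _ (Or.inr (by linarith))]; ring
  let θ := aff (1 / 9) (1 / 36) (by norm_num)
  let κ : ℝ ≃o ℝ := θ.symm.trans (κt.trans θ)
  have hκ : ∀ t, κ (1 / 36 + 1 / 9 * t) = 1 / 36 + 1 / 9 * κt t := fun t => by
    simp only [κ, θ, OrderIso.trans_apply, aff_apply, aff_symm_apply]
    rw [show (1 / 36 + 1 / 9 * t - 1 / 36) / (1 / 9) = t by ring]; ring
  obtain ⟨g₀, hg₀⟩ := exists_per κ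
    (by
      have := hκ (-(19 / 4))
      rw [kl _ (by norm_num), hf' _ (Or.inl (by norm_num))] at this
      norm_num at this ⊢; exact this)
    (by
      have := hκ (17 / 4)
      rw [kr _ (by norm_num), hfJ' _ (Or.inr (by norm_num))] at this
      norm_num at this ⊢; exact this)
  let g : Lift := ⟨g₀.toIso.trans (OrderIso.addRight (1 / 3)), fun x => by
    simp only [OrderIso.trans_apply, OrderIso.addRight_apply, g₀.comm]; ring⟩
  have hg : ∀ t, -(19 / 4) ≤ t → t ≤ 17 / 4 →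
      g.toIso (1 / 36 + 1 / 9 * t) = 1 / 36 + 1 / 9 * (κt t + 3) := fun t h1 h2 => by
    simp only [g, OrderIso.trans_apply, OrderIso.addRight_apply]
    rw [hg₀ _ (by linarith) (by linarith), hκ]; ring
  refine ⟨g, fun x h1 h2 => ?_, ?_, ⟨trivial, fun t h1 h2 => ?_⟩, fun t h1 h2 => ?_⟩
  · obtain ⟨t, rfl⟩ : ∃ t, x = 1 / 36 + 1 / 9 * t := ⟨9 * x - 1 / 4, by ring⟩
    have e : (1 / 36 + 1 / 9 * t - 1 / 36) / (1 / 9) = t := by ring
    simp only [e, Arrow.kick, aff_apply, aff_symm_apply]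
    have a1 : κt t - t = (f t - (t + 3)) + (fJ t - (t - 6)) := by
      rcases le_total t 2 with h | h
      · rw [kl t (by linarith), hfJ' t (Or.inl (by linarith))]; ring
      · rw [kr t (by linarith), hf' t (Or.inr (by linarith))]; ring
    have a2 : g.toIso.symm (1 / 36 + 1 / 9 * t)
        = 1 / 36 + 1 / 9 * (t - 3 + (f.symm t - (t - 3)) + (fJ.symm t - (t + 6))) := by
      rw [OrderIso.symm_apply_eq]
      rcases le_total (-(7 / 4)) t with h | h
      · have b1 : fJ.symm t = t + 6 := by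
          rw [OrderIso.symm_apply_eq, hfJ' _ (Or.inr (by linarith))]; ring
        have b2 : f.symm t ≤ 5 / 2 := by
          rw [OrderIso.symm_apply_le, hf' _ (Or.inr (by norm_num))]; linarith
        have b3 : -(19 / 4) ≤ f.symm t := by
          rw [OrderIso.le_symm_apply, hf' _ (Or.inl (by norm_num))]; linarith
        rw [b1, show t - 3 + (f.symm t - (t - 3)) + (t + 6 - (t + 6)) = f.symm t by ring,
          hg _ b3 (by linarith), kl _ b2]
        simp
      · have b1 : f.symm t = t - 3 := by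
          rw [OrderIso.symm_apply_eq, hf' _ (Or.inl (by linarith))]; ring
        have b2 : fJ.symm t ≤ 17 / 4 := by
          rw [OrderIso.symm_apply_le, hfJ' _ (Or.inr (by norm_num))]; linarith
        have b3 : 1 ≤ fJ.symm t := by
          rw [OrderIso.le_symm_apply, hfJ' _ (Or.inl (by norm_num))]; linarith
        have b4 := g.comm_int (1 / 36 + 1 / 9 * fJ.symm t) (-1)
        rw [hg _ (by linarith) b2, kr _ b3, OrderIso.apply_symm_apply] at b4
        push_cast at b4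
        rw [b1, show 1 / 36 + 1 / 9 * (t - 3 + (t - 3 - (t - 3)) + (fJ.symm t - (t + 6)))
          = 1 / 36 + 1 / 9 * fJ.symm t + -1 by ring, b4]
        ring
    rw [hg t (by linarith) (by linarith), a2]
    linarith
  · have := hg (17 / 4) (by norm_num) le_rfl
    rw [kr _ (by norm_num), hfJ' _ (Or.inr (by norm_num))] at this
    norm_num at this ⊢; exact this
  · have h1' : -(9 / 2) ≤ t := h1
    have h2' : t ≤ 1 := h2
    have a1 : g.toIso (1 / 36 + 1 / 9 * t) = 1 / 36 + 1 / 9 * f t := by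
      rw [hg t (by linarith) (by linarith), kl t (by linarith)]; ring
    refine ⟨by simpa using a1, fun k hk => ?_⟩
    have hk' : k ≤ 1 := hk
    interval_cases k
    · apply av_of_abs_le
      rw [Function.iterate_zero_apply, abs_le]; constructor <;> linarith
    · apply av_of_abs_le
      have b1 := f.monotone h1'
      have b2 := f.monotone h2'
      rw [hf' _ (Or.inl le_rfl)] at b1
      rw [hf' _ (Or.inr le_rfl)] at b2
      rw [Function.iterate_one, a1, abs_le]; constructor <;> linarith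
  · have h1' : 5 / 2 ≤ t := h1
    have h2' : t ≤ 7 / 2 := h2
    have a1 : g.toIso (1 / 36 + 1 / 9 * t) = 1 / 36 + 1 / 9 * fJ t + (1 : ℤ) := by
      rw [hg t (by linarith) (by linarith), kr t (by linarith)]; push_cast; ring
    refine ⟨by simpa using a1, fun k hk => ?_⟩
    have hk' : k ≤ 1 := hk
    interval_cases k
    · apply av_of_abs_le
      rw [Function.iterate_zero_apply, abs_le]; constructor <;> linarith
    · have b1 := fJ.monotone h1'
      have b2 := fJ.monotone h2'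
      rw [hfJ' _ (Or.inl le_rfl)] at b1
      rw [hfJ' _ (Or.inr le_rfl)] at b2
      rw [Function.iterate_one, a1]
      apply Av.add_int
      apply av_of_abs_le
      rw [abs_le]; constructor <;> linarith

/-- the map with one corner fixed point that replaces the translation by 3 -/
noncomputable def Gmid : ℝ ≃o ℝ := exists_mid.choose

/-- the kick needed for Gmid -/
noncomputable def Dmid (t : ℝ) : ℝ := (Gmid t - (t + 3)) + (Gmid.symm t - (t - 3))

lemma sm_Dmid : Sm Dmid := by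
  have e : Dmid = fun t => (Gmid t + Gmid.symm t) - 2 * t := by
    funext t; unfold Dmid; ring
  rw [e]
  exact exists_mid.choose_spec.2.2.sub (contDiff_const.mul contDiff_id)

lemma Dmid_zero {t : ℝ} (ht : t ≤ -(9 / 2) ∨ 4 ≤ t) : Dmid t = 0 := by
  have := kick_zero (ar := ⟨-(9 / 2), 1, aff 1 3 one_pos, 1, 1, 0⟩) (f := Gmid)
    exists_mid.choose_spec.1 (t := t) (by
      simp only [aff_apply]
      rcases ht with ht | ht
      · left; constructor <;> linarith
      · right; constructor <;> linarith)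
  simpa [Arrow.kick, Dmid] using this

lemma pre_to_level {a s w : ℝ} {q : ℕ} {p : ℤ} {K : Cont} (hK : Mono K) {ψ : ℝ → ℝ}
    {C : Lift → Prop} (H : step a s ⟨-(9 / 2), 1, aff 1 3 one_pos, w, q, p⟩ K ψ C) :
    step a s ⟨-4, 9 / 10, cor, w, q, p⟩ K (fun x => ψ x + s * w * Dmid ((x - a) / s)) C := by
  have h1 := step_rebase (ar := ⟨-(9 / 2), 1, aff 1 3 one_pos, w, q, p⟩) (f₀ := Gmid)
    exists_mid.choose_spec.1 H
  have h2 := step_shrink hK (-4) (9 / 10) cor (by norm_num) (by norm_num) (by norm_num)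
    exists_mid.choose_spec.2.1 h1
  have e : (fun x => ψ x + s * w * Dmid ((x - a) / s)) = fun x => ψ x
      + s * Arrow.kick ⟨-(9 / 2), 1, aff 1 3 one_pos, w, q, p⟩ Gmid ((x - a) / s) := by
    funext x
    simp only [Arrow.kick, Dmid, aff_apply, aff_symm_apply]; ring
  rw [e]
  exact h2

/-- the data carried through the induction -/
structure Level where
  a : ℝ
  s : ℝ
  w : ℝ
  wJ : ℝ
  q : ℕ
  qJ : ℕ
  p : ℤ
  pJ : ℤ
  ψ : ℝ → ℝ
  hs : 0 < s
  hw : 0 < w
  hwJ : 0 < wJ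
  hlo : -(17 / 36) ≤ a - 9 / 2 * s
  hhi : a + 4 * s ≤ 17 / 36
  real : step a s ⟨-4, 9 / 10, cor, w, q, p⟩
    (step a s ⟨5 / 2, 7 / 2, aff 1 (-6) one_pos, wJ, qJ, pJ⟩ K0) ψ (fun _ => True)

/-- the first level -/
noncomputable def level0 : Level where
  a := 1 / 36
  s := 1 / 9
  w := 1
  wJ := 1
  q := 1
  qJ := 1
  p := 0
  pJ := 1
  ψ := fun x => 0 + 1 / 9 * 1 * Dmid ((x - 1 / 36) / (1 / 9))
  hs := by norm_num
  hw := one_pos
  hwJ := one_pos
  hlo := by norm_num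
  hhi := by norm_num
  real := pre_to_level (mono_K0.step _) base

lemma out_of_window {a s x : ℝ} (hs : 0 < s) (hlo : -(17 / 36) ≤ a - 9 / 2 * s)
    (hhi : a + 4 * s ≤ 17 / 36) (hx : 17 / 36 ≤ |x|) :
    (x - a) / s ≤ -(9 / 2) ∨ 4 ≤ (x - a) / s := by
  rcases le_abs.1 hx with h | h
  · right; rw [le_div_iff₀ hs]; linarith
  · left; rw [div_le_iff₀ hs]; linarith

/-- the relation between consecutive levels -/
def Next (r : ℕ) (δ : ℝ) (L L' : Level) : Prop :=
  (∃ m : ℕ, 5 ≤ m ∧ L'.q = (m + 1) * L.q + L.qJ ∧ L'.p = L.pJ + (m + 1) * L.p ∧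
    L'.qJ = m * L.q + L.qJ ∧ L'.pJ = L.pJ + m * L.p) ∧
  Sm (fun x => L'.ψ x - L.ψ x) ∧ Bd r δ (fun x => L'.ψ x - L.ψ x) ∧
  ∀ x, 17 / 36 ≤ |x| → L'.ψ x - L.ψ x = 0

lemma exists_next (L : Level) (r : ℕ) {δ : ℝ} (hδ : 0 < δ) : ∃ L', Next r δ L L' := by
  obtain ⟨a, s, w, wJ, q, qJ, p, pJ, ψ, hs, hw, hwJ, hlo, hhi, real⟩ := L
  obtain ⟨M, hM0, hM⟩ := bd_of_support sm_Dmid (b := -(9 / 2)) (c := 4)
    (fun τ h => Dmid_zero (h.imp le_of_lt le_of_lt)) r
  have hs' : 0 < s * (1 / 10) := by positivity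
  set c₁ : ℝ := s * w * (1 + s⁻¹) ^ r with hc₁
  set c₂ : ℝ := s * (1 / 10) * (1 + (s * (1 / 10))⁻¹) ^ r * M with hc₂
  have hc₁0 : 0 < c₁ := by positivity
  have hc₂0 : 0 ≤ c₂ := by positivity
  obtain ⟨n₀, hn₀⟩ := exists_nat_ge (8 * w * c₂ / δ)
  obtain ⟨m, hm0, hm5, u, H, hu, su, bu, Hm, Hu, H1, H2⟩ :=
    opening r (show 0 < δ / 2 / c₁ by positivity) n₀
  have a1 := step_rebase (ar := ⟨-4, 9 / 10, cor, w, q, p⟩) (f₀ := u) hu real
  obtain ⟨v, v', hv, hv', hvb, a2⟩ := chain mono_K0 hw hwJ hm5 Hm Hu H1 H2 a1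
  have a3 := step_rechart (mono_K0.step _) hs (τ := 3) (σ := 1 / 10) (by norm_num)
    (-(9 / 2)) 1 (aff 1 3 one_pos) (by norm_num) (by norm_num)
    (fun t => by simp only [aff_apply]; ring) a2
  have a4 := step_inner _ (fun ψ C h => step_rechart mono_K0 hs (τ := 3) (σ := 1 / 10)
    (by norm_num) (5 / 2) (7 / 2) (aff 1 (-6) one_pos) (by norm_num) (by norm_num)
    (fun t => by simp only [aff_apply]; ring) h) a3
  have a5 := pre_to_level (mono_K0.step _) a4
  refine ⟨⟨a + s * 3, s * (1 / 10), v, v', _, _, _, _, _, hs', hv, hv', by linarith, by linarith,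
    a5⟩, ⟨m, hm5, rfl, rfl, rfl, rfl⟩, ?_⟩
  have ek : ∀ t, Arrow.kick ⟨-4, 9 / 10, cor, w, q, p⟩ u t = w * (u t + u.symm t - 17 / 4 * t) := by
    intro t
    simp only [Arrow.kick]
    rw [← cor_add_symm]; ring
  have e : (fun x => ψ x + s * Arrow.kick ⟨-4, 9 / 10, cor, w, q, p⟩ u ((x - a) / s)
      + s * (1 / 10) * v * Dmid ((x - (a + s * 3)) / (s * (1 / 10))) - ψ x)
      = fun x => s * w * (fun t => u t + u.symm t - 17 / 4 * t) ((x - a) / s)
        + s * (1 / 10) * v * Dmid ((x - (a + s * 3)) / (s * (1 / 10))) := by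
    funext x; rw [ek]; ring
  have s1 : Sm fun x => s * w * (fun t => u t + u.symm t - 17 / 4 * t) ((x - a) / s) :=
    contDiff_const.mul (su.rescale a s)
  have s2 : Sm fun x => s * (1 / 10) * v * Dmid ((x - (a + s * 3)) / (s * (1 / 10))) :=
    contDiff_const.mul (sm_Dmid.rescale _ _)
  refine ⟨?_, ?_, fun x hx => ?_⟩
  · simp only; rw [e]; exact s1.add s2
  · simp only; rw [e]
    refine (Bd.add s1 s2 (Bd.const_mul (by positivity) (bu.rescale a su hs))
      (Bd.const_mul (by positivity) (hM.rescale _ sm_Dmid hs'))).mono ?_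
    have b1 : s * w * ((1 + s⁻¹) ^ r * (δ / 2 / c₁)) = δ / 2 := by
      rw [hc₁]; field_simp
    have b2 : s * (1 / 10) * v * ((1 + (s * (1 / 10))⁻¹) ^ r * M) = v * c₂ := by
      rw [hc₂]; ring
    rw [b1, b2]
    rw [div_le_iff₀ hδ] at hn₀
    have b3 : (n₀ : ℝ) ≤ m := by exact_mod_cast hm0
    have b4 : v * c₂ * (m + 1) ≤ δ / 2 * (m + 1) := by nlinarith
    have := le_of_mul_le_mul_right b4 (by positivity)
    linarith
  · simp only
    have w1 := out_of_window hs hlo hhi hx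
    have w2 := out_of_window (a := a + s * 3) hs' (by linarith) (by linarith) hx
    rw [Dmid_zero w2, kick_zero (ar := ⟨-4, 9 / 10, cor, w, q, p⟩) hu]
    · ring
    · simp only
      rw [cor_left (by norm_num), cor_right (by norm_num)]
      rcases w1 with h | h
      · left; constructor <;> linarith
      · right; constructor <;> linarith

lemma Level.exists_lift (L : Level) : ∃ g : Lift,
    (∀ x, -(1 / 2) ≤ x → x ≤ 1 / 2 → g.toIso x + g.toIso.symm x - 2 * x = L.ψ x) ∧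
    g.toIso (1 / 2) = 5 / 6 ∧ g.toIso^[L.q] L.a = L.a + L.p ∧
    (0 < L.q → ∀ k, Av (g.toIso^[k] L.a)) := by
  obtain ⟨g, h1, h2, -, h3⟩ := step_drop mono_K0 (step_self L.real)
  have h4 := h3 0 (by norm_num) (by norm_num)
  simp only [cor_left le_rfl, zero_div, mul_zero, add_zero] at h4
  refine ⟨g, h1, h2, h4.1, fun hq k => ?_⟩
  induction k using Nat.strong_induction_on with
  | _ k ih =>
    rcases le_or_gt k L.q with h | h
    · exact h4.2 k h
    · obtain ⟨j, rfl⟩ := Nat.exists_eq_add_of_le' h.le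
      rw [Function.iterate_add_apply, h4.1, g.iter_comm_int]
      exact (ih j (by omega)).add_int _

end Pool.Agent.Lib.MP_896b3c_an
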