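import Mathlib
import Pool.Agent.Lib.MP_896b3c_an.Level

set_option autoImplicit false
open Set Filter Topology
open scoped ContDiff

namespace Pool.Agent.Lib.MP_896b3c_an

/-- the sequence of levels -/
noncomputable def LL : ℕ → Level
  | 0 => level0
  | n + 1 => (exists_next (LL n) n (show (0 : ℝ) < (1 / 2) ^ n by positivity)).choose

lemma LL_next (n : ℕ) : Next n ((1 / 2) ^ n) (LL n) (LL (n + 1)) :=
  (exists_next (LL n) n (show (0 : ℝ) < (1 / 2) ^ n by positivity)).choose_spec

lemma LL_arith (n : ℕ) : 1 ≤ (LL n).q ∧ n + 1 ≤ (LL n).qJ ∧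
    ((LL n).q : ℤ) * (LL n).pJ - (LL n).p * (LL n).qJ = 1 := by
  induction n with
  | zero => simp [LL, level0]
  | succ n ih =>
    obtain ⟨m, hm, h1, h2, h3, h4⟩ := (LL_next n).1
    obtain ⟨i1, i2, i3⟩ := ih
    refine ⟨by rw [h1]; omega, by rw [h3]; nlinarith, ?_⟩
    rw [h1, h2, h3, h4]
    push_cast
    linear_combination i3

/-- distance to the lower approximation -/
noncomputable def dl (j : ℕ) (θ : ℝ) : ℝ := (LL j).q * θ - (LL j).p
/-- distance to the upper approximation -/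
noncomputable def du (j : ℕ) (θ : ℝ) : ℝ := (LL j).pJ - (LL j).qJ * θ

lemma dl_du (j : ℕ) (θ : ℝ) : (LL j).q * du j θ + (LL j).qJ * dl j θ = 1 := by
  have : (((LL j).q : ℤ) * (LL j).pJ - (LL j).p * (LL j).qJ : ℝ) = 1 := by
    exact_mod_cast (LL_arith j).2.2
  unfold dl du
  push_cast at this
  linear_combination this

lemma dl_succ (j : ℕ) (θ : ℝ) : dl j θ = dl (j + 1) θ + du (j + 1) θ ∧
    ∃ m : ℕ, du j θ = du (j + 1) θ + m * dl j θ := by
  obtain ⟨m, hm, h1, h2, h3, h4⟩ := (LL_next j).1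
  unfold dl du
  rw [h1, h2, h3, h4]
  push_cast
  exact ⟨by ring, m, by ring⟩

lemma dl_nonneg (i j : ℕ) :
    0 ≤ dl j ((LL (j + i)).p / (LL (j + i)).q) ∧ 0 ≤ du j ((LL (j + i)).p / (LL (j + i)).q) := by
  induction i generalizing j with
  | zero =>
    have hq : (0 : ℝ) < (LL j).q := by exact_mod_cast (LL_arith j).1
    have h1 : dl j ((LL j).p / (LL j).q) = 0 := by unfold dl; field_simp; ring
    have h2 := dl_du j ((LL j).p / (LL j).q)
    rw [h1, mul_zero, add_zero] at h2
    refine ⟨h1.ge, ?_⟩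
    by_contra h
    have := mul_neg_of_pos_of_neg hq (not_le.1 h)
    simp only [add_zero] at this
    linarith
  | succ i ih =>
    have h := ih (j + 1)
    rw [show j + 1 + i = j + (i + 1) by ring] at h
    obtain ⟨h1, m, h2⟩ := dl_succ j ((LL (j + (i + 1))).p / (LL (j + (i + 1))).q)
    have h3 : 0 ≤ dl j ((LL (j + (i + 1))).p / (LL (j + (i + 1))).q) := by rw [h1]; linarith
    exact ⟨h3, by rw [h2]; have := h.2; positivity⟩

lemma dl_small {θ : ℝ} (h : ∀ j, 0 ≤ dl j θ ∧ 0 ≤ du j θ) (j : ℕ) :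
    0 < dl j θ ∧ (j + 1) * dl j θ ≤ 1 := by
  constructor
  · rw [(dl_succ j θ).1]
    by_contra hc
    have h1 := h (j + 1)
    have h2 : dl (j + 1) θ = 0 := by linarith
    have h3 : du (j + 1) θ = 0 := by linarith
    have := dl_du (j + 1) θ
    rw [h2, h3] at this
    simp at this
  · have h1 := dl_du j θ
    have h2 : ((j : ℝ) + 1) ≤ (LL j).qJ := by exact_mod_cast (LL_arith j).2.1
    have h3 := h j
    have h4 : 0 ≤ (LL j).q * du j θ := mul_nonneg (by positivity) h3.2
    nlinarith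

lemma irrational_of_dl {θ : ℝ} (h : ∀ j, 0 ≤ dl j θ ∧ 0 ≤ du j θ) : Irrational θ := by
  rintro ⟨r, rfl⟩
  obtain ⟨h1, h2⟩ := dl_small h r.den
  have hd : (0 : ℝ) < r.den := by exact_mod_cast r.den_pos
  have e : r.den * dl r.den r = (((LL r.den).q * r.num - (LL r.den).p * r.den : ℤ) : ℝ) := by
    unfold dl
    rw [Rat.cast_def]
    push_cast
    field_simp
  have h3 : (0 : ℝ) < (((LL r.den).q * r.num - (LL r.den).p * r.den : ℤ) : ℝ) := by
    rw [← e]; positivity
  have h4 : (1 : ℝ) ≤ (((LL r.den).q * r.num - (LL r.den).p * r.den : ℤ) : ℝ) := by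
    exact_mod_cast h3
  nlinarith

/-- the limit potential on the window -/
noncomputable def psi (x : ℝ) : ℝ := (LL 0).ψ x + ∑' n, ((LL (n + 1)).ψ x - (LL n).ψ x)

lemma sm_psi : Sm psi := by
  have h0 : Sm (LL 0).ψ :=
    contDiff_const.add (contDiff_const.mul (sm_Dmid.rescale (1 / 36) (1 / 9)))
  refine h0.add (contDiff_tsum_of_eventually (N := ⊤) (v := fun _ i => (1 / 2 : ℝ) ^ i)
    (f := fun n x => (LL (n + 1)).ψ x - (LL n).ψ x) (fun n => (LL_next n).2.1)
    (fun _ _ => summable_geometric_two) fun k _ => ?_)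
  rw [Nat.cofinite_eq_atTop]
  filter_upwards [eventually_ge_atTop k] with i hi x
  rw [norm_iteratedFDeriv_eq_norm_iteratedDeriv]
  exact (LL_next i).2.2.1 k hi x

lemma psi_zero {x : ℝ} (hx : 17 / 36 ≤ |x|) : psi x = 0 := by
  unfold psi
  have h1 : (LL 0).ψ x = 0 := by
    change 0 + 1 / 9 * 1 * Dmid ((x - 1 / 36) / (1 / 9)) = 0
    rw [Dmid_zero (out_of_window (by norm_num) (by norm_num) (by norm_num) hx)]; ring
  simp [h1, fun n => (LL_next n).2.2.2 x hx]

lemma tendsto_psi (x : ℝ) : Tendsto (fun n => (LL n).ψ x) atTop (𝓝 (psi x)) := by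
  have hs : Summable fun n => (LL (n + 1)).ψ x - (LL n).ψ x :=
    Summable.of_norm_bounded summable_geometric_two fun n => by
      simpa using (LL_next n).2.2.1 0 (Nat.zero_le _) x
  have h := hs.hasSum.tendsto_sum_nat.const_add ((LL 0).ψ x)
  refine h.congr fun n => ?_
  rw [Finset.sum_range_sub (fun n => (LL n).ψ x)]; ring

/-- the limit potential -/
noncomputable def phi (x : ℝ) : ℝ := psi (x - ⌊x + 1 / 2⌋)

lemma phi_add_one (x : ℝ) : phi (x + 1) = phi x := by
  unfold phi
  rw [show x + 1 + 1 / 2 = x + 1 / 2 + 1 by ring, Int.floor_add_one]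
  congr 1; push_cast; ring

lemma sm_phi : Sm phi := by
  rw [Sm, contDiff_iff_contDiffAt]
  intro x
  have hev : phi =ᶠ[𝓝 x] fun y => psi (y - ⌊x + 1 / 2⌋) := by
    have a1 := Int.floor_le (x + 1 / 2)
    have a2 := Int.lt_floor_add_one (x + 1 / 2)
    filter_upwards [eventually_gt_nhds (show (⌊x + 1 / 2⌋ : ℝ) - 19 / 36 < x by linarith),
      eventually_lt_nhds (show x < (⌊x + 1 / 2⌋ : ℝ) + 1 / 2 by linarith)] with y h1 h2
    unfold phi
    rcases le_or_gt ((⌊x + 1 / 2⌋ : ℝ) - 1 / 2) y with h | h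
    · have : ⌊y + 1 / 2⌋ = ⌊x + 1 / 2⌋ := Int.floor_eq_iff.2 ⟨by linarith, by linarith⟩
      rw [this]
    · have : ⌊y + 1 / 2⌋ = ⌊x + 1 / 2⌋ - 1 :=
        Int.floor_eq_iff.2 ⟨by push_cast; linarith, by push_cast; linarith⟩
      rw [this, psi_zero, psi_zero]
      · rw [le_abs]; right; linarith
      · rw [le_abs]; left; push_cast; linarith
  exact ContDiffAt.congr_of_eventuallyEq
    (sm_psi.comp (contDiff_id.sub contDiff_const)).contDiffAt hev

lemma exists_ulim (u : ℕ → ℝ) {lo hi : ℝ} (h : ∀ n, lo ≤ u n ∧ u n ≤ hi) :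
    ∃ l, Tendsto u (hyperfilter ℕ) (𝓝 l) := by
  obtain ⟨l, -, hl⟩ := (isCompact_Icc (a := lo) (b := hi)).ultrafilter_le_nhds
    ((hyperfilter ℕ).map u) (by
      rw [le_principal_iff, Ultrafilter.coe_map, mem_map]
      exact Eventually.of_forall h)
  exact ⟨l, hl⟩

lemma tendsto_comp_mono {l : Filter ℕ} {f : ℕ → ℝ → ℝ} {F : ℝ → ℝ} (hm : ∀ n, Monotone (f n))
    (hf : ∀ x, Tendsto (fun n => f n x) l (𝓝 (F x))) (hF : Continuous F) {y : ℕ → ℝ} {Y : ℝ}
    (hy : Tendsto y l (𝓝 Y)) : Tendsto (fun n => f n (y n)) l (𝓝 (F Y)) := by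
  rw [tendsto_order]
  constructor
  · intro z hz
    obtain ⟨x, hx1, hx2⟩ :=
      ((frequently_lt_nhds Y).and_eventually (hF.continuousAt.eventually (eventually_gt_nhds hz))).exists
    filter_upwards [hy.eventually (eventually_gt_nhds hx1),
      (hf x).eventually (eventually_gt_nhds hx2)] with n h1 h2
    exact h2.trans_le (hm n h1.le)
  · intro z hz
    obtain ⟨x, hx1, hx2⟩ :=
      ((frequently_gt_nhds Y).and_eventually (hF.continuousAt.eventually (eventually_lt_nhds hz))).exists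
    filter_upwards [hy.eventually (eventually_lt_nhds hx1),
      (hf x).eventually (eventually_lt_nhds hx2)] with n h1 h2
    exact (hm n h1.le).trans_lt h2

lemma continuous_of_add_mono {f g : ℝ → ℝ} (hf : Monotone f) (hg : Monotone g)
    (h : Continuous fun x => f x + g x) : Continuous f := by
  rw [continuous_iff_continuousAt]
  intro x
  rw [ContinuousAt, tendsto_iff_dist_tendsto_zero]
  have h1 := tendsto_iff_dist_tendsto_zero.1 (h.tendsto x)
  refine squeeze_zero (fun _ => dist_nonneg) (fun y => ?_) h1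
  rw [Real.dist_eq, Real.dist_eq]
  rcases le_total x y with hxy | hxy
  · have a1 := hf hxy
    have a2 := hg hxy
    rw [abs_of_nonneg (by linarith), abs_of_nonneg (by linarith)]; linarith
  · have a1 := hf hxy
    have a2 := hg hxy
    rw [abs_of_nonpos (by linarith), abs_of_nonpos (by linarith)]; linarith

/-- a lift as a degree one lift -/
def Lift.toDeg (g : Lift) : CircleDeg1Lift where
  toFun := g.toIso
  monotone' := g.toIso.monotone
  map_add_one' := g.comm

lemma Lift.toDeg_pow (g : Lift) (k : ℕ) (x : ℝ) : (g.toDeg ^ k) x = g.toIso^[k] x := by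
  rw [CircleDeg1Lift.coe_pow]; rfl

lemma Lift.bound {g : Lift} {u v : ℝ} (h : g.toIso u = v) (x : ℝ) :
    v + ⌊x - u⌋ ≤ g.toIso x ∧ g.toIso x ≤ v + ⌈x - u⌉ := by
  rw [← h, ← g.comm_int, ← g.comm_int]
  exact ⟨g.toIso.monotone (by linarith [Int.floor_le (x - u)]),
    g.toIso.monotone (by linarith [Int.le_ceil (x - u)])⟩

/-- the inverse lift -/
def Lift.symm (g : Lift) : Lift :=
  ⟨g.toIso.symm, fun x => by simpa using g.symm_comm_int x 1⟩

theorem exists_limit : ∃ g : Lift, (∀ x, g.toIso x + g.toIso.symm x - 2 * x = phi x) ∧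
    (∀ j, 0 ≤ dl j g.toDeg.translationNumber ∧ 0 ≤ du j g.toDeg.translationNumber) ∧
    ∃ x₀, ∀ k, Av (g.toIso^[k] x₀) := by
  choose g hg1 hg2 hg3 hg4 using fun n => (LL n).exists_lift
  have hU : (hyperfilter ℕ : Filter ℕ) ≤ atTop := by
    rw [← Nat.cofinite_eq_atTop]; exact hyperfilter_le_cofinite
  choose F hF using fun x => exists_ulim (fun n => (g n).toIso x) fun n => Lift.bound (hg2 n) x
  choose F' hF' using fun x => exists_ulim (fun n => (g n).toIso.symm x)
    fun n => Lift.bound (g := (g n).symm) (u := 5 / 6) (v := 1 / 2)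
      (by change (g n).toIso.symm _ = _; rw [OrderIso.symm_apply_eq, hg2]) x
  have Fm : Monotone F := fun x y h =>
    le_of_tendsto_of_tendsto' (hF x) (hF y) fun n => (g n).toIso.monotone h
  have Fm' : Monotone F' := fun x y h =>
    le_of_tendsto_of_tendsto' (hF' x) (hF' y) fun n => (g n).toIso.symm.monotone h
  have hsum : ∀ x, F x + F' x - 2 * x = phi x := by
    intro x
    have h1 := ((hF x).add (hF' x)).sub_const (2 * x)
    have h2 := (tendsto_psi (x - ⌊x + 1 / 2⌋)).mono_left hU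
    refine tendsto_nhds_unique h1 (h2.congr fun n => ?_)
    have a1 := Int.floor_le (x + 1 / 2)
    have a2 := Int.lt_floor_add_one (x + 1 / 2)
    rw [← hg1 n _ (by linarith) (by linarith)]
    have b1 := (g n).comm_int (x - ⌊x + 1 / 2⌋) ⌊x + 1 / 2⌋
    have b2 := (g n).symm_comm_int (x - ⌊x + 1 / 2⌋) ⌊x + 1 / 2⌋
    rw [sub_add_cancel] at b1 b2
    rw [b1, b2]; ring
  have hc : Continuous fun x => F x + F' x := by
    have : (fun x => F x + F' x) = fun x => phi x + 2 * x := by
      funext x; rw [← hsum]; ring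
    rw [this]
    exact sm_phi.continuous.add (by fun_prop)
  have Fc : Continuous F := continuous_of_add_mono Fm Fm' hc
  have Fc' : Continuous F' := continuous_of_add_mono Fm' Fm (by simpa [add_comm] using hc)
  have hl : Function.LeftInverse F' F := fun x =>
    tendsto_nhds_unique (tendsto_comp_mono (fun n => (g n).toIso.symm.monotone) hF' Fc' (hF x))
      (by simp)
  have hr : Function.RightInverse F' F := fun x =>
    tendsto_nhds_unique (tendsto_comp_mono (fun n => (g n).toIso.monotone) hF Fc (hF' x))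
      (by simp)
  let G : Lift := ⟨Equiv.toOrderIso ⟨F, F', hl, hr⟩ Fm Fm', fun x =>
    tendsto_nhds_unique (hF (x + 1)) (((hF x).add_const 1).congr fun n => ((g n).comm x).symm)⟩
  have hit : ∀ (k : ℕ) {y : ℕ → ℝ} {Y : ℝ}, Tendsto y (hyperfilter ℕ) (𝓝 Y) →
      Tendsto (fun n => (g n).toIso^[k] (y n)) (hyperfilter ℕ) (𝓝 (G.toIso^[k] Y)) := by
    intro k y Y hy
    induction k with
    | zero => exact hy
    | succ k ih =>
      simp only [Function.iterate_succ_apply']
      exact tendsto_comp_mono (fun n => (g n).toIso.monotone) hF Fc ih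
  have hτ : Tendsto (fun n => ((LL n).p : ℝ) / (LL n).q) (hyperfilter ℕ)
      (𝓝 G.toDeg.translationNumber) := by
    rw [Metric.tendsto_nhds]
    intro ε hε
    obtain ⟨k, hk⟩ := exists_nat_gt (3 / ε)
    have hk0 : (0 : ℝ) < k := lt_trans (by positivity) hk
    filter_upwards [Metric.tendsto_nhds.1 (hit k (tendsto_const_nhds (x := 0))) 1 one_pos] with n hn
    have a1 := (g n).toDeg.dist_pow_map_zero_mul_translationNumber_le k
    have a2 := G.toDeg.dist_pow_map_zero_mul_translationNumber_le k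
    rw [(g n).toDeg.translationNumber_of_map_pow_eq_add_int (x := (LL n).a) (m := (LL n).p)
      (by rw [Lift.toDeg_pow, hg3]) (LL_arith n).1] at a1
    rw [Lift.toDeg_pow, Real.dist_eq, abs_le] at a1 a2
    rw [Real.dist_eq, abs_lt] at hn ⊢
    rw [div_lt_iff₀ hε] at hk
    constructor
    · by_contra hc
      nlinarith [mul_le_mul_of_nonneg_left (not_lt.1 hc) hk0.le]
    · by_contra hc
      nlinarith [mul_le_mul_of_nonneg_left (not_lt.1 hc) hk0.le]
  obtain ⟨x₀, hx₀⟩ := exists_ulim (fun n => (LL n).a) (lo := -1) (hi := 1) fun n => by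
    have h1 := (LL n).hlo
    have h2 := (LL n).hhi
    have h3 := (LL n).hs
    constructor <;> linarith
  refine ⟨G, hsum, fun j => ?_, x₀, fun k m => ?_⟩
  · have hev : ∀ᶠ n in (hyperfilter ℕ : Filter ℕ),
        0 ≤ dl j ((LL n).p / (LL n).q) ∧ 0 ≤ du j ((LL n).p / (LL n).q) := by
      filter_upwards [hU (eventually_ge_atTop j)] with n hn
      obtain ⟨i, rfl⟩ := Nat.exists_eq_add_of_le hn
      exact dl_nonneg i j
    exact ⟨ge_of_tendsto ((hτ.const_mul _).sub_const _) (hev.mono fun n h => h.1),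
      ge_of_tendsto ((hτ.const_mul _).const_sub _) (hev.mono fun n h => h.2)⟩
  · by_contra hc
    push Not at hc
    have h1 := (hit k hx₀).add_const (m : ℝ)
    obtain ⟨n, h2, h3⟩ :=
      ((h1.eventually (eventually_gt_nhds hc.1)).and (h1.eventually (eventually_lt_nhds hc.2))).exists
    rcases hg4 n (LL_arith n).1 k m with h | h <;> linarith

theorem not_conj {g : Lift}
    (h1 : ∀ j, 0 ≤ dl j g.toDeg.translationNumber ∧ 0 ≤ du j g.toDeg.translationNumber)
    {x₀ : ℝ} (h2 : ∀ k, Av (g.toIso^[k] x₀)) :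
    ¬ ∃ h : ℝ ≃ₜ ℝ, ∃ a : ℝ, (∀ x, h (x + 1) = h x + 1) ∧ ∀ x, h (g.toIso x) = h x + a := by
  rintro ⟨h, a, ha1, ha2⟩
  have hm : StrictMono h := by
    rcases h.continuous.strictMono_of_inj h.injective with hm | hm
    · exact hm
    · have := hm (show (0 : ℝ) < 0 + 1 by norm_num)
      rw [ha1] at this; linarith
  let H : Lift := ⟨hm.orderIsoOfSurjective h h.surjective, ha1⟩
  have hτ : g.toDeg.translationNumber = a := by
    rw [← CircleDeg1Lift.translationNumber_translate a]
    apply CircleDeg1Lift.translationNumber_eq_of_semiconj (f := H.toDeg)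
    intro x
    rw [CircleDeg1Lift.translate_apply, add_comm]
    exact ha2 x
  rw [hτ] at h1
  have hit : ∀ (k : ℕ) (x : ℝ), h (g.toIso^[k] x) = h x + k * a := by
    intro k x
    induction k with
    | zero => simp
    | succ k ih => rw [Function.iterate_succ_apply', ha2, ih]; push_cast; ring
  have hint : ∀ (x : ℝ) (m : ℤ), h (x + m) = h x + m := H.comm_int
  have hl : 0 < h (19 / 36) - h (17 / 36) := sub_pos.2 (hm (by norm_num))
  obtain ⟨j, hj⟩ := exists_nat_gt (1 / (h (19 / 36) - h (17 / 36)))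
  obtain ⟨d0, d1⟩ := dl_small h1 j
  have d2 : dl j a < h (19 / 36) - h (17 / 36) := by
    rw [div_lt_iff₀ hl] at hj
    by_contra hc
    have := not_lt.1 hc
    have hj0 : (0 : ℝ) ≤ j := by positivity
    nlinarith
  set m : ℤ := ⌈h x₀ - h (17 / 36)⌉ with hm'
  have m1 : 0 ≤ h (17 / 36) + m - h x₀ := by linarith [Int.le_ceil (h x₀ - h (17 / 36))]
  set i : ℕ := ⌊(h (17 / 36) + m - h x₀) / dl j a⌋₊ + 1 with hi
  have i1 : h (17 / 36) + m - h x₀ < i * dl j a := by
    rw [← div_lt_iff₀ d0, hi]; push_cast; exact Nat.lt_floor_add_one _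
  have i2 : i * dl j a ≤ h (17 / 36) + m - h x₀ + dl j a := by
    have := Nat.floor_le (div_nonneg m1 d0.le)
    rw [le_div_iff₀ d0] at this
    rw [hi]; push_cast; linarith
  have key : h (g.toIso^[i * (LL j).q] x₀ + ((-(i * (LL j).p) - m : ℤ) : ℝ))
      = h x₀ + i * dl j a - m := by
    rw [hint, hit]; unfold dl; push_cast; ring
  rcases h2 (i * (LL j).q) (-(i * (LL j).p) - m) with h3 | h3
  · have := hm.monotone h3
    rw [key] at this; linarith
  · have := hm.monotone h3
    rw [key] at this; linarith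

end Pool.Agent.Lib.MP_896b3c_an
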