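import Mathlib
import Pool.Agent.Lib.MP_896b3c_an.Limit

set_option autoImplicit false
open Set Filter Topology
open scoped ContDiff

namespace Pool.Agent.Lib.MP_896b3c_an

/-- the standard-like map with potential φ -/
def stdMap (φ : ℝ → ℝ) (p : ℝ × ℝ) : ℝ × ℝ := (p.1 + p.2 + φ p.1, p.2 + φ p.1)

lemma stdMap_contDiff {φ : ℝ → ℝ} (h : Sm φ) : ContDiff ℝ ∞ (stdMap φ) :=
  ((contDiff_fst.add contDiff_snd).add (h.comp contDiff_fst)).prodMk
    (contDiff_snd.add (h.comp contDiff_fst))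

lemma stdMap_bijective (φ : ℝ → ℝ) : Function.Bijective (stdMap φ) := by
  refine Function.bijective_iff_has_inverse.2
    ⟨fun p => (p.1 - p.2, p.2 - φ (p.1 - p.2)), fun p => ?_, fun p => ?_⟩
  · simp only [stdMap]
    rw [show p.1 + p.2 + φ p.1 - (p.2 + φ p.1) = p.1 by ring]
    ext <;> simp
  · simp only [stdMap]
    ext <;> simp

lemma stdMap_fderiv {φ : ℝ → ℝ} (h : Sm φ) (p v : ℝ × ℝ) :
    fderiv ℝ (stdMap φ) p v = (v.1 + v.2 + deriv φ p.1 * v.1, v.2 + deriv φ p.1 * v.1) := by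
  have h1 : HasFDerivAt (fun q : ℝ × ℝ => φ q.1) (deriv φ p.1 • ContinuousLinearMap.fst ℝ ℝ ℝ) p :=
    (h.diff p.1).hasDerivAt.comp_hasFDerivAt p hasFDerivAt_fst
  have h2 := ((hasFDerivAt_fst.add hasFDerivAt_snd).add h1).prodMk (hasFDerivAt_snd.add h1)
  have h3 : fderiv ℝ (stdMap φ) p = _ := h2.fderiv
  rw [h3]
  simp

lemma stdMap_det {φ : ℝ → ℝ} (h : Sm φ) (p : ℝ × ℝ) :
    LinearMap.det (fderiv ℝ (stdMap φ) p).toLinearMap = 1 := by
  rw [← LinearMap.det_toMatrix (Module.Basis.finTwoProd ℝ), Matrix.det_fin_two]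
  simp [LinearMap.toMatrix_apply, stdMap_fderiv h]

theorem main : ∃ φ : ℝ → ℝ, ContDiff ℝ ∞ φ ∧ (∀ x, φ (x + 1) = φ x) ∧
    ∃ γ : ℝ → ℝ, Continuous γ ∧ (∀ x, γ (x + 1) = γ x) ∧
      ∃ g : CircleDeg1Lift, Continuous g ∧ Function.Bijective g ∧
        (∀ x, stdMap φ (x, γ x) = (g x, γ (g x))) ∧ Irrational g.translationNumber ∧
        ¬ ∃ h : ℝ ≃ₜ ℝ, ∃ a : ℝ, (∀ x, h (x + 1) = h x + 1) ∧ ∀ x, h (g x) = h x + a := by
  obtain ⟨g, h1, h2, x₀, h3⟩ := exists_limit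
  refine ⟨phi, sm_phi, phi_add_one, fun x => x - g.toIso.symm x,
    continuous_id.sub g.toIso.symm.continuous, fun x => ?_, g.toDeg, g.toIso.continuous,
    g.toIso.bijective, fun x => ?_, irrational_of_dl h2, not_conj h2 h3⟩
  · have := g.symm.comm x
    change g.toIso.symm (x + 1) = g.toIso.symm x + 1 at this
    simp only [this]; ring
  · change stdMap phi (x, x - g.toIso.symm x) = (g.toIso x, g.toIso x - g.toIso.symm (g.toIso x))
    simp only [stdMap, OrderIso.symm_apply_apply, ← h1 x]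
    ext <;> simp <;> ring

end Pool.Agent.Lib.MP_896b3c_an
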