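import Mathlib
import Pool.Agent.Lib.MP_896b3c_an.Final

set_option autoImplicit false
open Set Filter Topology
open scoped ContDiff

namespace Pool.Agent.Lib.MP_896b3c_an

lemma integral_bounds (g : ℝ ≃o ℝ) {s t : ℝ} (h : s ≤ t) :
    (t - s) * g s ≤ ∫ x in s..t, g x ∧ ∫ x in s..t, g x ≤ (t - s) * g t := by
  have hi : IntervalIntegrable g MeasureTheory.volume s t := g.continuous.intervalIntegrable s t
  constructor
  · have := intervalIntegral.integral_mono_on h (intervalIntegrable_const (c := g s)) hi
      fun x hx => g.monotone hx.1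
    simpa using this
  · have := intervalIntegral.integral_mono_on h hi (intervalIntegrable_const (c := g t))
      fun x hx => g.monotone hx.2
    simpa using this

lemma young (g : ℝ ≃o ℝ) (t : ℝ) :
    (∫ x in (0 : ℝ)..t, g x) + (∫ y in (g 0)..(g t), g.symm y) - t * g t = 0 := by
  let A : ℝ → ℝ := fun t => (∫ x in (0 : ℝ)..t, g x) + (∫ y in (g 0)..(g t), g.symm y) - t * g t
  have hb : ∀ s t, s ≤ t → |A t - A s| ≤ (g t - g s) * (t - s) := by
    intro s t h
    have e1 := intervalIntegral.integral_interval_sub_left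
      (g.continuous.intervalIntegrable (μ := MeasureTheory.volume) 0 t)
      (g.continuous.intervalIntegrable 0 s)
    have e2 := intervalIntegral.integral_interval_sub_left
      (g.symm.continuous.intervalIntegrable (μ := MeasureTheory.volume) (g 0) (g t))
      (g.symm.continuous.intervalIntegrable (g 0) (g s))
    have b1 := integral_bounds g h
    have b2 := integral_bounds g.symm (g.monotone h)
    simp only [OrderIso.symm_apply_apply] at b2
    simp only [A]
    rw [abs_le]
    constructor <;> nlinarith [b1.1, b1.2, b2.1, b2.2]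
  have hd : ∀ t, HasDerivAt A 0 t := by
    intro t
    rw [hasDerivAt_iff_isLittleO]
    apply Asymptotics.IsLittleO.of_bound
    intro c hc
    filter_upwards [Metric.tendsto_nhds.1 (g.continuous.tendsto t) c hc] with s hs
    rw [Real.dist_eq, abs_lt] at hs
    simp only [smul_zero, sub_zero, Real.norm_eq_abs]
    rcases le_total s t with h | h
    · rw [abs_sub_comm, abs_sub_comm s, abs_of_nonneg (sub_nonneg.2 h)]
      exact (hb s t h).trans (mul_le_mul_of_nonneg_right (by linarith) (sub_nonneg.2 h))
    · rw [abs_of_nonneg (sub_nonneg.2 h)]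
      exact (hb t s h).trans (mul_le_mul_of_nonneg_right (by linarith) (sub_nonneg.2 h))
  have := is_const_of_deriv_eq_zero (fun t => (hd t).differentiableAt) (fun t => (hd t).deriv) t 0
  simpa [A] using this

lemma flux_zero (g : Lift) :
    ∫ x in (0 : ℝ)..1, (g.toIso x + g.toIso.symm x - 2 * x) = 0 := by
  have h1 := young g.toIso 1
  have h2 : g.toIso 1 = g.toIso 0 + 1 := by simpa using g.comm 0
  have hp : Function.Periodic (fun y => g.toIso.symm y - y) 1 := fun y => by
    have := g.symm.comm y
    change g.toIso.symm (y + 1) = g.toIso.symm y + 1 at this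
    simp only [this]; ring
  have h3 := hp.intervalIntegral_add_eq (g.toIso 0) 0
  have i1 : ∀ a b, IntervalIntegrable g.toIso.symm MeasureTheory.volume a b :=
    g.toIso.symm.continuous.intervalIntegrable
  have i2 : ∀ a b, IntervalIntegrable g.toIso MeasureTheory.volume a b :=
    g.toIso.continuous.intervalIntegrable
  have i3 : ∀ a b, IntervalIntegrable (fun x : ℝ => x) MeasureTheory.volume a b :=
    continuous_id.intervalIntegrable
  rw [intervalIntegral.integral_sub (i1 _ _) (i3 _ _), intervalIntegral.integral_sub (i1 _ _) (i3 _ _),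
    integral_id, integral_id, zero_add] at h3
  rw [intervalIntegral.integral_sub ((i2 _ _).add (i1 _ _)) ((i3 _ _).const_mul 2),
    intervalIntegral.integral_add (i2 _ _) (i1 _ _), intervalIntegral.integral_const_mul,
    integral_id]
  rw [h2] at h1
  linarith

theorem main' : ∃ φ : ℝ → ℝ, (∀ n : ℕ, ContDiff ℝ n φ) ∧ (∀ x, φ (x + 1) = φ x) ∧
    (∫ x in (0 : ℝ)..1, φ x) = 0 ∧
    ∃ γ : ℝ → ℝ, Continuous γ ∧ (∀ x, γ (x + 1) = γ x) ∧
      ∃ g : CircleDeg1Lift, Continuous g ∧ Function.Bijective g ∧
        (∀ x, stdMap φ (x, γ x) = (g x, γ (g x))) ∧ Irrational g.translationNumber ∧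
        ¬ ∃ h : ℝ ≃ₜ ℝ, ∃ a : ℝ, (∀ x, h (x + 1) = h x + 1) ∧ ∀ x, h (g x) = h x + a := by
  obtain ⟨g, h1, h2, x₀, h3⟩ := exists_limit
  refine ⟨phi, sm_phi.nat, phi_add_one, ?_, fun x => x - g.toIso.symm x,
    continuous_id.sub g.toIso.symm.continuous, fun x => ?_, g.toDeg, g.toIso.continuous,
    g.toIso.bijective, fun x => ?_, irrational_of_dl h2, not_conj h2 h3⟩
  · simp only [← h1]; exact flux_zero g
  · have := g.symm.comm x
    change g.toIso.symm (x + 1) = g.toIso.symm x + 1 at this
    simp only [this]; ring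
  · change stdMap phi (x, x - g.toIso.symm x) = (g.toIso x, g.toIso x - g.toIso.symm (g.toIso x))
    simp only [stdMap, OrderIso.symm_apply_apply, ← h1 x]
    ext <;> simp <;> ring

end Pool.Agent.Lib.MP_896b3c_an
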